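import Pool.Agent.Helper21.CY.Num

/-!
Project CY, case A, `m = 1`: the quadratic form on `J₀`.
-/

open Matrix MH

namespace CYJ

variable {n : Type*} [Fintype n] [DecidableEq n]

theorem ad_mul (h a b : Matrix n n ℂ) : ad h (a * b) = ad h a * b + a * ad h b := by
  simp only [ad_apply]
  noncomm_ring

/-- `z` is the partner in `J₀ᴴ` of `y ∈ J₀`: `e y p = z s`. -/
structure Par (J : Submodule ℂ (Matrix n n ℂ)) (e u s y z : Matrix n n ℂ) : Prop where
  y0 : y ∈ Jw J u 0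
  z0 : zᴴ ∈ Jw J u 0
  eq : e * (y * (sᴴ * s)) = z * s

/-- the symmetric form on `J₀` -/
noncomputable def bb (e s y y' : Matrix n n ℂ) : ℂ := (sᴴ * (e * (y * y'))).trace

namespace Par

variable {J : Submodule ℂ (Matrix n n ℂ)} {e u s y z y' z' : Matrix n n ℂ}

theorem add (P : Par J e u s y z) (P' : Par J e u s y' z') : Par J e u s (y + y') (z + z') where
  y0 := Submodule.add_mem _ P.y0 P'.y0
  z0 := by
    rw [Matrix.conjTranspose_add]
    exact Submodule.add_mem _ P.z0 P'.z0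
  eq := by rw [add_mul, mul_add, P.eq, P'.eq, add_mul]

theorem smul (a : ℂ) (P : Par J e u s y z) : Par J e u s (a • y) (a • z) where
  y0 := Submodule.smul_mem _ _ P.y0
  z0 := by
    rw [Matrix.conjTranspose_smul]
    exact Submodule.smul_mem _ _ P.z0
  eq := by rw [smul_mul_assoc, mul_smul_comm, P.eq, smul_mul_assoc]

theorem yJ (P : Par J e u s y z) : y ∈ J := P.y0.1
theorem zJ (P : Par J e u s y z) : zᴴ ∈ J := P.z0.1

end Par

namespace Trp

variable {J : Submodule ℂ (Matrix n n ℂ)} {h s : Matrix n n ℂ} {c k : ℝ} {N : ℕ}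
  {f : Fin N → Matrix n n ℂ} {e u : Matrix n n ℂ} (T : Trp J e u) (D : Jor J h s c k N f) (hm : c * nrm e = 1)
include T D

theorem ad0 {y : Matrix n n ℂ} (hy : y ∈ Jw J u 0) : u * y = y * u := by
  have h1 := hy.2
  rw [zero_smul, ad_apply, sub_eq_zero] at h1
  exact h1

theorem ad1 {x : Matrix n n ℂ} (hx : x ∈ Jw J u (-1)) : u * x = x * u - x := by
  have h1 := hx.2
  rw [neg_one_smul, ad_apply] at h1
  rw [← sub_eq_zero]
  rw [show u * x - (x * u - x) = (u * x - x * u) + x by abel, h1, neg_add_cancel]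

/-- `J₀` commutes with `eᴴ` -/
theorem com_eH {y : Matrix n n ℂ} (hy : y ∈ Jw J u 0) : eᴴ * y = y * eᴴ := by
  have h1 : (hs (ad eᴴ y) (ad eᴴ y)).re = 0 := by
    rw [hs_ad, Matrix.conjTranspose_conjTranspose, T.BA D hy.1, hy.2, zero_smul, neg_zero, hs_zero_left, Complex.zero_re]
  have h2 := nrm_eq_zero h1
  rw [ad_apply, sub_eq_zero] at h2
  exact h2

theorem com_zH {z : Matrix n n ℂ} (hz : zᴴ ∈ Jw J u 0) : z * e = e * z := by
  have h1 := congrArg Matrix.conjTranspose (T.com_eH D hz)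
  rw [Matrix.conjTranspose_mul, Matrix.conjTranspose_mul, Matrix.conjTranspose_conjTranspose,
    Matrix.conjTranspose_conjTranspose] at h1
  exact h1

theorem com_z {z : Matrix n n ℂ} (hz : zᴴ ∈ J) : z * eᴴ = eᴴ * z := by
  have h1 := congrArg Matrix.conjTranspose (D.comm e T.mem _ hz)
  rw [Matrix.conjTranspose_mul, Matrix.conjTranspose_mul, Matrix.conjTranspose_conjTranspose] at h1
  exact h1

omit T in
theorem zp {z : Matrix n n ℂ} (hz : zᴴ ∈ J) : z * (sᴴ * s) = 0 := by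
  have h1 := congrArg Matrix.conjTranspose (D.sx _ hz)
  rw [Matrix.conjTranspose_mul, Matrix.conjTranspose_conjTranspose, Matrix.conjTranspose_zero] at h1
  rw [← mul_assoc, h1, zero_mul]

theorem ead {y : Matrix n n ℂ} : ad u (e * y) = (-2 : ℂ) • (e * y) + e * ad u y := by
  rw [ad_mul, T.ue, smul_mul_assoc]

include hm

theorem up1 : u * (sᴴ * s) = sᴴ * s := by
  rw [T.up D, hm, Complex.ofReal_one, one_smul]

theorem us1 : u * s = -s := by
  rw [T.us D, hm, Complex.ofReal_neg, Complex.ofReal_one, neg_one_smul]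

theorem eHep : eᴴ * (e * (sᴴ * s)) = sᴴ * s := by
  have h1 := T.up1 D hm
  have h2 : eᴴ * (sᴴ * s) = 0 := zp D (by rw [Matrix.conjTranspose_conjTranspose]; exact T.mem)
  rw [T.def_u, ad_apply, sub_mul, mul_assoc e, h2, mul_zero, sub_zero, mul_assoc] at h1
  exact h1

theorem eeHs : e * (eᴴ * s) = s := by
  have h1 := T.us1 D hm
  rw [T.def_u, ad_apply, sub_mul, mul_assoc eᴴ, D.xs e T.mem, mul_zero, zero_sub, neg_inj, mul_assoc] at h1
  exact h1

/-- on `J₀ v` -/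
theorem eHeyp {y : Matrix n n ℂ} (hy : y ∈ Jw J u 0) : eᴴ * (e * (y * (sᴴ * s))) = y * (sᴴ * s) := by
  calc eᴴ * (e * (y * (sᴴ * s))) = eᴴ * ((e * y) * (sᴴ * s)) := by simp only [mul_assoc]
    _ = (eᴴ * y) * (e * (sᴴ * s)) := by rw [D.comm e T.mem y hy.1]; simp only [mul_assoc]
    _ = y * (eᴴ * (e * (sᴴ * s))) := by rw [T.com_eH D hy, mul_assoc]
    _ = _ := by rw [T.eHep D hm]

/-- weights on the columns -/
theorem w0p {y : Matrix n n ℂ} (hy : y ∈ Jw J u 0) : u * (y * (sᴴ * s)) = y * (sᴴ * s) := by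
  rw [← mul_assoc, T.ad0 D hy, mul_assoc, T.up1 D hm]

theorem w1p {x : Matrix n n ℂ} (hx : x ∈ Jw J u (-1)) : u * (x * (sᴴ * s)) = 0 := by
  rw [← mul_assoc, T.ad1 D hx, sub_mul, mul_assoc, T.up1 D hm, sub_self]

theorem wep : u * (e * (sᴴ * s)) = -(e * (sᴴ * s)) := by
  have h1 : u * e = (-2 : ℂ) • e + e * u := by rw [← T.ue, ad_apply]; abel
  rw [← mul_assoc, h1, add_mul, smul_mul_assoc, mul_assoc e u, T.up1 D hm]
  module

theorem exists_par {y : Matrix n n ℂ} (hy : y ∈ Jw J u 0) : ∃ z, Par J e u s y z := by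
  have h1 : h * (e * (y * (sᴴ * s))) = (-(1 / 2) : ℂ) • (e * (y * (sᴴ * s))) := by
    have h2 := D.h_left hy.1 D.hp
    have h3 := D.h_left T.mem h2
    rw [h3]
    congr 1
    norm_num
  obtain ⟨x, hx, hxe⟩ := D.exists_mhalf h1 (by simp only [mul_assoc]; rw [← mul_assoc sᴴ s, D.pp])
  refine ⟨xᴴ, hy, ?_, hxe⟩
  rw [Matrix.conjTranspose_conjTranspose]
  refine ⟨hx, ?_⟩
  rw [zero_smul]
  refine D.inj_s (T.uJ D hx) ?_
  have h2 : u * (xᴴ * s) = -(xᴴ * s) := by
    rw [← hxe]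
    have h3 : u * e = (-2 : ℂ) • e + e * u := by rw [← T.ue, ad_apply]; abel
    rw [← mul_assoc u e, h3, add_mul, smul_mul_assoc, mul_assoc e u, T.w0p D hm hy]
    module
  rw [ad_star, T.uu, ad_apply, neg_mul, sub_mul, mul_assoc, h2, mul_assoc xᴴ u, T.us1 D hm, mul_neg]
  simp

omit hm in
theorem eyy {y y' : Matrix n n ℂ} (hy : y ∈ J) (hy' : y' ∈ J) : e * (y * (y' * (sᴴ * s))) = bb e s y y' • s := by
  have h1 : h * (e * (y * (y' * (sᴴ * s)))) = (-(3 / 2) : ℂ) • (e * (y * (y' * (sᴴ * s)))) := by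
    have h2 := D.h_left hy' D.hp
    have h3 := D.h_left hy h2
    have h4 := D.h_left T.mem h3
    rw [h4]
    congr 1
    norm_num
  rw [← D.col_bot h1]
  have h2 : s * sᴴ * (e * (y * (y' * (sᴴ * s)))) = s * (sᴴ * (e * (y * y')) * (sᴴ * s)) := by simp only [mul_assoc]
  rw [h2, D.shmp, mul_smul_comm, D.sp]
  rfl

theorem R1 {y z y' : Matrix n n ℂ} (P : Par J e u s y z) (hy' : y' ∈ J) : y' * (z * s) = bb e s y y' • s := by
  rw [← P.eq, ← T.eyy D P.yJ hy', ← mul_assoc y' e, D.comm y' hy' e T.mem, mul_assoc e, ← mul_assoc y' y,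
    D.comm y' hy' y P.yJ, mul_assoc y]

theorem R2 {y z y' : Matrix n n ℂ} (P : Par J e u s y z) (hy' : y' ∈ J) :
    z * (y' * (sᴴ * s)) = bb e s y y' • (sᴴ * s) := by
  have hz : z = (zᴴ)ᴴ := (Matrix.conjTranspose_conjTranspose z).symm
  have h1 : ad h (z * y') = 0 := by
    rw [ad_mul, D.deg y' hy']
    conv_lhs => rw [hz, D.degH P.zJ]
    rw [mul_neg, add_neg_cancel]
  rw [← mul_assoc, D.zero_p h1]
  congr 1
  have h2 : ((sᴴ * s) * (z * y')).trace = c * (z * y').trace := by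
    have h3 := D.cp _ P.zJ y' hy'
    rw [← hz] at h3
    exact h3
  have h3 : ((s * sᴴ) * (y' * z)).trace = c * (y' * z).trace := by
    have h4 := D.cq y' hy' _ P.zJ
    rw [← hz] at h4
    exact h4
  rw [h2, Matrix.trace_mul_comm z, ← h3, mul_assoc s, Matrix.trace_mul_comm s]
  have h4 : sᴴ * (y' * z) * s = sᴴ * (y' * (z * s)) := by simp only [mul_assoc]
  rw [h4, T.R1 D hm P hy', mul_smul_comm, Matrix.trace_smul, D.pt, smul_eq_mul, mul_one]

omit T hm in
theorem s_ne : s ≠ 0 := by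
  intro h0
  have := D.pt
  rw [h0] at this
  simp at this

theorem R3 {y y' : Matrix n n ℂ} (hy : y ∈ Jw J u 0) (hy' : y' ∈ Jw J u 0) :
    y * (y' * (sᴴ * s)) = bb e s y y' • (eᴴ * s) := by
  have h1 : h * (y * (y' * (sᴴ * s))) = (-(1 / 2) : ℂ) • (y * (y' * (sᴴ * s))) := by
    have h2 := D.h_left hy'.1 D.hp
    have h3 := D.h_left hy.1 h2
    rw [h3]
    congr 1
    norm_num
  obtain ⟨x, hx, hxe⟩ := D.exists_mhalf h1 (by simp only [mul_assoc]; rw [← mul_assoc sᴴ s, D.pp])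
  have h2 : u * (xᴴ * s) = xᴴ * s := by
    rw [← hxe, ← mul_assoc u y, T.ad0 D hy, mul_assoc y u, T.w0p D hm hy']
  have h3 : ad u x = (-2 : ℂ) • x := by
    refine D.ext_s (T.uJ D hx) (J.smul_mem _ hx) ?_
    rw [ad_star, T.uu, ad_apply, neg_mul, sub_mul, mul_assoc, h2, mul_assoc xᴴ u, T.us1 D hm, mul_neg,
      Matrix.conjTranspose_smul, smul_mul_assoc]
    have : star (-2 : ℂ) = -2 := by simp
    rw [this]
    module
  obtain ⟨a, ha⟩ := T.uniq x hx h3
  rw [hxe, ha, Matrix.conjTranspose_smul, smul_mul_assoc]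
  congr 1
  have h4 := T.eyy D hy.1 hy'.1
  rw [hxe, ha, Matrix.conjTranspose_smul, smul_mul_assoc, mul_smul_comm, T.eeHs D hm] at h4
  have h5 : (star a - bb e s y y') • s = 0 := by rw [sub_smul, h4, sub_self]
  rcases smul_eq_zero.1 h5 with h6 | h6
  · exact sub_eq_zero.1 h6
  · exact absurd h6 (s_ne D)

theorem R4 {y z : Matrix n n ℂ} (P : Par J e u s y z) : z * (eᴴ * s) = y * (sᴴ * s) := by
  rw [← mul_assoc, T.com_z D P.zJ, mul_assoc, ← P.eq, T.eHeyp D hm P.y0]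

omit T D hm in
theorem bb_comm {y y' : Matrix n n ℂ} (hc : y * y' = y' * y) : bb e s y y' = bb e s y' y := by
  unfold bb
  rw [hc]

/-- the form is non-degenerate -/
theorem bb_nondeg {y : Matrix n n ℂ} (hy : y ∈ Jw J u 0) (h0 : ∀ y' ∈ Jw J u 0, bb e s y y' = 0) : y = 0 := by
  obtain ⟨z, P⟩ := T.exists_par D hm hy
  have h1 := T.R2 D hm P P.zJ
  rw [h0 _ P.z0, zero_smul] at h1
  have h2 := D.cp _ P.zJ _ P.zJ
  rw [Matrix.conjTranspose_conjTranspose, Matrix.trace_mul_comm, mul_assoc, h1, Matrix.trace_zero] at h2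
  have h3 : (z * zᴴ).trace = 0 := by
    rcases mul_eq_zero.1 h2.symm with h4 | h4
    · exact absurd h4 D.cC
    · exact h4
  have h4 : z = 0 := by
    have h5 : nrm zᴴ = 0 := by
      show (hs zᴴ zᴴ).re = 0
      unfold MH.hs
      rw [Matrix.conjTranspose_conjTranspose, h3, Complex.zero_re]
    have h6 := nrm_eq_zero h5
    rw [← Matrix.conjTranspose_conjTranspose z, h6, Matrix.conjTranspose_zero]
  refine D.inj_p hy.1 ?_
  rw [← T.eHeyp D hm hy, P.eq, h4, zero_mul, mul_zero]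

end Trp

end CYJ
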