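import Pool.Agent.Helper21.CY.Cl1

/-!
Project CY, case A, `m = 1`: the action of `J₀` on `U = J₁ v`.
-/

open Matrix MH

namespace CYJ

variable {n : Type*} [Fintype n] [DecidableEq n]

namespace Jor

variable {J : Submodule ℂ (Matrix n n ℂ)} {h s : Matrix n n ℂ} {c k : ℝ} {N : ℕ}
  {f : Fin N → Matrix n n ℂ} (D : Jor J h s c k N f)
include D

theorem h_half {x : Matrix n n ℂ} (hx : x ∈ J) : h * (x * (sᴴ * s)) = (1 / 2 : ℂ) • (x * (sᴴ * s)) := by
  rw [D.h_left hx D.hp]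
  congr 1
  norm_num

theorem h_mhalf {x : Matrix n n ℂ} (hx : x ∈ J) : h * (xᴴ * s) = (-(1 / 2) : ℂ) • (xᴴ * s) := by
  rw [D.hH_left hx D.es]
  congr 1
  norm_num

/-- an element of degree zero that kills the extreme lines and has trace zero has trace zero on the eigenspace of
`1/2` -/
theorem tr_zero {ι : Type*} [Fintype ι] [DecidableEq ι] {g : ι → Matrix n n ℂ} (hg : ONB J g) {M : Matrix n n ℂ}
    (h1 : M * (sᴴ * s) = 0) (h2 : M * s = 0) (h3 : M.trace = 0) (h4 : ∀ x ∈ J, ad M x ∈ J) (hk : 0 ≤ k) :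
    ∑ i, ((sᴴ * s) * ((g i)ᴴ * M * g i)).trace = 0 := by
  have hc := D.cC
  have q1 : ∀ X : Matrix n n ℂ, ((sᴴ * s) * X).trace = (X * (sᴴ * s)).trace := fun X => Matrix.trace_mul_comm _ _
  have q2 : ∀ X : Matrix n n ℂ, ((s * sᴴ) * X).trace = (sᴴ * (X * s)).trace := fun X => by
    rw [mul_assoc s, Matrix.trace_mul_comm s, mul_assoc]
  have e1 := D.trace_eq hg M
  have t1 : ((sᴴ * s) * M).trace = 0 := by rw [q1, h1, Matrix.trace_zero]
  have t2 : ((s * sᴴ) * M).trace = 0 := by rw [q2, h2, mul_zero, Matrix.trace_zero]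
  have e2 := D.trace_eq hg (M * h)
  have t3 : ((sᴴ * s) * (M * h)).trace = 0 := by
    rw [q1, mul_assoc M, D.hp, mul_smul_comm, h1, smul_zero, Matrix.trace_zero]
  have t4 : ((s * sᴴ) * (M * h)).trace = 0 := by
    rw [q2, mul_assoc M, D.es, mul_smul_comm, h2, smul_zero, mul_zero, Matrix.trace_zero]
  have t5 : ∀ i, ((sᴴ * s) * ((g i)ᴴ * (M * h) * g i)).trace = (1 / 2 : ℂ) * ((sᴴ * s) * ((g i)ᴴ * M * g i)).trace := by
    intro i
    rw [q1, q1]
    have h5 : (g i)ᴴ * (M * h) * g i * (sᴴ * s) = (g i)ᴴ * M * (h * (g i * (sᴴ * s))) := by simp only [mul_assoc]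
    rw [h5, D.h_half (hg.mem i), mul_smul_comm, Matrix.trace_smul, smul_eq_mul]
    simp only [mul_assoc]
  have t6 : ∀ i, ((s * sᴴ) * (g i * (M * h) * (g i)ᴴ)).trace =
      (-(1 / 2) : ℂ) * ((s * sᴴ) * (g i * M * (g i)ᴴ)).trace := by
    intro i
    rw [q2, q2]
    have h5 : sᴴ * (g i * (M * h) * (g i)ᴴ * s) = sᴴ * (g i * M * (h * ((g i)ᴴ * s))) := by simp only [mul_assoc]
    rw [h5, D.h_mhalf (hg.mem i), mul_smul_comm, mul_smul_comm, Matrix.trace_smul, smul_eq_mul]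
    simp only [mul_assoc]
  have e3 := congrArg (fun X => (X * M).trace) (D.kap' hg)
  simp only [Finset.sum_mul, Matrix.trace_sum, smul_mul_assoc, Matrix.trace_smul, smul_eq_mul] at e3
  have t7 : ∀ i, (ad (g i)ᴴ (g i) * M).trace = -((c : ℂ)⁻¹ * ((sᴴ * s) * ((g i)ᴴ * M * g i)).trace) := by
    intro i
    have h5 := D.cp _ (hg.mem i) _ (h4 _ (hg.mem i))
    have h6 : ((sᴴ * s) * ((g i)ᴴ * ad M (g i))).trace = ((sᴴ * s) * ((g i)ᴴ * M * g i)).trace := by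
      rw [ad_apply, mul_sub, mul_sub, Matrix.trace_sub, ← mul_assoc (g i)ᴴ M]
      rw [q1 ((g i)ᴴ * (g i * M))]
      have h7 : (g i)ᴴ * (g i * M) * (sᴴ * s) = (g i)ᴴ * (g i * (M * (sᴴ * s))) := by simp only [mul_assoc]
      rw [h7, h1]
      simp
    rw [tr_ad_u, ← h6, h5, ← mul_assoc, inv_mul_cancel₀ hc, one_mul]
  rw [h3, t1, t2] at e1
  rw [t3, t4, Finset.sum_congr rfl (fun i _ => t5 i), Finset.sum_congr rfl (fun i _ => t6 i), ← Finset.mul_sum,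
    ← Finset.mul_sum] at e2
  rw [Finset.sum_congr rfl (fun i _ => t7 i), Finset.sum_neg_distrib, ← Finset.mul_sum, Matrix.trace_mul_comm h] at e3
  set A := ∑ i, ((sᴴ * s) * ((g i)ᴴ * M * g i)).trace with hA
  set B := ∑ i, ((s * sᴴ) * (g i * M * (g i)ᴴ)).trace with hB
  have e4 : ((1 : ℂ) + k) * ((c : ℂ)⁻¹ * A) = 0 := by
    have h5 : (M * h).trace = (c : ℂ)⁻¹ * A := by linear_combination e2 + (1 / 2 : ℂ) * e1
    rw [h5] at e3
    linear_combination -e3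
  have h6 : (1 : ℂ) + k ≠ 0 := by
    have : (1 : ℝ) + k ≠ 0 := by positivity
    exact_mod_cast this
  rcases mul_eq_zero.1 e4 with h7 | h7
  · exact absurd h7 h6
  · rcases mul_eq_zero.1 h7 with h8 | h8
    · exact absurd h8 (inv_ne_zero hc)
    · exact h8

end Jor

namespace Trp

variable {J : Submodule ℂ (Matrix n n ℂ)} {h s : Matrix n n ℂ} {c k : ℝ} {N : ℕ}
  {f : Fin N → Matrix n n ℂ} {e u : Matrix n n ℂ} (T : Trp J e u) (D : Jor J h s c k N f) (hm : c * nrm e = 1)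
  {y z : Matrix n n ℂ} (P : Par J e u s y z)
include T D hm P

theorem Hp : ad z y * (sᴴ * s) = bb e s y y • (sᴴ * s) := by
  rw [ad_apply, sub_mul, mul_assoc, mul_assoc, T.R2 D hm P P.yJ, zp D P.zJ, mul_zero, sub_zero]

theorem Hyp {y' : Matrix n n ℂ} (hy' : y' ∈ Jw J u 0) : ad z y * (y' * (sᴴ * s)) = 0 := by
  rw [ad_apply, sub_mul, mul_assoc, mul_assoc, T.R2 D hm P hy'.1, T.R3 D hm P.y0 hy', mul_smul_comm, mul_smul_comm,
    T.R4 D hm P, sub_self]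

theorem Hs : ad z y * s = -(bb e s y y • s) := by
  rw [ad_apply, sub_mul, mul_assoc, mul_assoc, D.xs y P.yJ, mul_zero, T.R1 D hm P P.yJ, zero_sub]

theorem Hep : ad z y * (e * (sᴴ * s)) = bb e s y y • (e * (sᴴ * s)) := by
  have h1 : z * (y * (e * (sᴴ * s))) = e * (z * (y * (sᴴ * s))) := by
    rw [← mul_assoc y e, D.comm y P.yJ e T.mem, mul_assoc e y, ← mul_assoc z e, T.com_zH D P.z0, mul_assoc]
  have h2 : z * (e * (sᴴ * s)) = 0 := by
    rw [← mul_assoc, T.com_zH D P.z0, mul_assoc, zp D P.zJ, mul_zero]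
  rw [ad_apply, sub_mul, mul_assoc, mul_assoc, h1, h2, T.R2 D hm P P.yJ, mul_zero, sub_zero, mul_smul_comm]

omit T hm in
theorem HJ {x : Matrix n n ℂ} (hx : x ∈ J) : ad (ad z y) x ∈ J := by
  have h1 : ad z y = -ad y (zᴴ)ᴴ := by rw [Matrix.conjTranspose_conjTranspose, ← ad_anti]
  rw [h1, ad_neg_left]
  exact J.neg_mem (D.trip y P.yJ _ P.zJ x hx)

theorem Hy : ad (ad z y) y = -(bb e s y y • y) := by
  refine D.ext_p (HJ D P P.yJ) (J.neg_mem (J.smul_mem _ P.yJ)) ?_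
  rw [ad_apply (ad z y), sub_mul, mul_assoc, mul_assoc, T.Hyp D hm P P.y0, T.Hp D hm P, mul_smul_comm, zero_sub, neg_mul,
    smul_mul_assoc]

omit P in
theorem zxp {z x : Matrix n n ℂ} (hz : zᴴ ∈ Jw J u 0) (hx : x ∈ Jw J u (-1)) : z * (x * (sᴴ * s)) = 0 := by
  have hzz : z = (zᴴ)ᴴ := (Matrix.conjTranspose_conjTranspose z).symm
  have h1 : ad h (z * x) = 0 := by
    rw [ad_mul, D.deg x hx.1]
    conv_lhs => rw [hzz, D.degH hz.1]
    rw [mul_neg, add_neg_cancel]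
  rw [← mul_assoc, D.zero_p h1]
  have h2 := D.cp _ hz.1 x hx.1
  rw [← hzz] at h2
  have h3 : (z * x).trace = 0 := by
    have h4 : hs zᴴ x = 0 := by
      refine T.orth_w (a := 0) (b := -1) ?_ ?_ (by norm_num)
      · rw [hz.2, Complex.ofReal_zero]
      · rw [hx.2]
        push_cast
        rfl
    unfold MH.hs at h4
    rw [← hzz] at h4
    exact h4
  rw [h2, h3, mul_zero, zero_smul]

omit P in
theorem yyxp {y y' x : Matrix n n ℂ} (hy : y ∈ Jw J u 0) (hy' : y' ∈ Jw J u 0) (hx : x ∈ Jw J u (-1)) :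
    y * (y' * (x * (sᴴ * s))) = 0 := by
  have h1 : h * (y * (y' * (x * (sᴴ * s)))) = (-(3 / 2) : ℂ) • (y * (y' * (x * (sᴴ * s)))) := by
    have h3 := D.h_left hy'.1 (D.h_half hx.1)
    have h4 := D.h_left hy.1 h3
    rw [h4]
    congr 1
    norm_num
  have h2 : u * (y * (y' * (x * (sᴴ * s)))) = 0 := by
    rw [← mul_assoc, T.ad0 D hy, mul_assoc, ← mul_assoc u, T.ad0 D hy', mul_assoc y' u, T.w1p D hm hx, mul_zero, mul_zero]
  have h3 := D.col_bot h1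
  have h4 : s * sᴴ * (y * (y' * (x * (sᴴ * s)))) = s * (sᴴ * (y * (y' * x)) * (sᴴ * s)) := by simp only [mul_assoc]
  rw [h4, D.shmp, mul_smul_comm, D.sp] at h3
  rw [← h3, mul_smul_comm, T.us1 D hm, smul_neg, neg_eq_zero] at h2
  rw [← h3, h2]

theorem yzy {x : Matrix n n ℂ} (hx : x ∈ Jw J u (-1)) :
    y * (z * (y * (x * (sᴴ * s)))) = (bb e s y y / 2) • (y * (x * (sᴴ * s))) := by
  have h1 := congrArg (fun M => M * (x * (sᴴ * s))) (T.Hy D hm P)
  simp only [ad_apply, sub_mul, mul_sub, neg_mul, smul_mul_assoc, mul_assoc] at h1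
  have e1 := T.yyxp D hm P.y0 P.y0 hx
  have e2 := T.zxp D hm P.z0 hx
  rw [e1, e2, mul_zero, mul_zero, mul_zero, sub_zero, zero_sub] at h1
  have h2 : (2 : ℂ) • (y * (z * (y * (x * (sᴴ * s))))) = bb e s y y • (y * (x * (sᴴ * s))) := by
    rw [two_smul, ← neg_inj, ← h1]
    abel
  calc y * (z * (y * (x * (sᴴ * s)))) = (1 / 2 : ℂ) • ((2 : ℂ) • (y * (z * (y * (x * (sᴴ * s)))))) := by
        rw [smul_smul]
        norm_num
    _ = _ := by
      rw [h2, smul_smul]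
      congr 1
      ring

omit P in
theorem ex_U {B : Matrix n n ℂ} (hB : h * B = (1 / 2 : ℂ) • B) (hBp : B * (sᴴ * s) = B) (hu : u * B = 0) :
    ∃ x ∈ Jw J u (-1), B = x * (sᴴ * s) := by
  obtain ⟨x, hx, e1⟩ := D.exists_half hB hBp
  refine ⟨x, ⟨hx, ?_⟩, e1⟩
  refine D.ext_p (T.uJ D hx) (J.smul_mem _ hx) ?_
  rw [ad_apply, sub_mul, mul_assoc, ← e1, hu, mul_assoc, T.up1 D hm, zero_sub, neg_one_smul, neg_mul]

omit P in
theorem ex_U' {B : Matrix n n ℂ} (hB : h * B = (-(1 / 2) : ℂ) • B) (hBp : B * (sᴴ * s) = B) (hu : u * B = 0) :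
    ∃ x ∈ Jw J u (-1), B = xᴴ * s := by
  obtain ⟨x, hx, e1⟩ := D.exists_mhalf hB hBp
  refine ⟨x, ⟨hx, ?_⟩, e1⟩
  refine D.ext_s (T.uJ D hx) (J.smul_mem _ hx) ?_
  rw [ad_star, T.uu, ad_apply, neg_mul, sub_mul, mul_assoc, ← e1, hu, mul_assoc, T.us1 D hm, zero_sub, mul_neg, neg_neg,
    neg_one_smul, Matrix.conjTranspose_neg, neg_mul]

omit P in
/-- `y` maps `U` to `U'` -/
theorem yU {y x : Matrix n n ℂ} (hy : y ∈ Jw J u 0) (hx : x ∈ Jw J u (-1)) :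
    ∃ x' ∈ Jw J u (-1), y * (x * (sᴴ * s)) = x'ᴴ * s := by
  refine T.ex_U' D hm ?_ ?_ ?_
  · rw [D.h_left hy.1 (D.h_half hx.1)]
    congr 1
    norm_num
  · simp only [mul_assoc]
    rw [← mul_assoc sᴴ s, D.pp]
  · rw [← mul_assoc, T.ad0 D hy, mul_assoc, T.w1p D hm hx, mul_zero]

omit P in
/-- `z` maps `U'` to `U` -/
theorem zU' {z x : Matrix n n ℂ} (hz : zᴴ ∈ Jw J u 0) (hx : x ∈ Jw J u (-1)) :
    ∃ x' ∈ Jw J u (-1), z * (xᴴ * s) = x' * (sᴴ * s) := by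
  have hzz : z = (zᴴ)ᴴ := (Matrix.conjTranspose_conjTranspose z).symm
  refine T.ex_U D hm ?_ ?_ ?_
  · have h1 := D.hH_left hz.1 (D.h_mhalf hx.1)
    rw [← hzz] at h1
    rw [h1]
    congr 1
    norm_num
  · rw [mul_assoc, mul_assoc, D.sp]
  · have h1 : u * z = z * u := by
      have h2 := congrArg Matrix.conjTranspose (T.ad0 D hz)
      rw [Matrix.conjTranspose_mul, Matrix.conjTranspose_mul, Matrix.conjTranspose_conjTranspose, T.uu] at h2
      exact h2.symm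
    have h3 : u * (xᴴ * s) = 0 := by
      have h4 : ad u x = ((-1 : ℝ) : ℂ) • x := by
        rw [hx.2]
        push_cast
        rfl
      rw [T.uxs D h4, hm]
      norm_num
    rw [← mul_assoc, h1, mul_assoc, h3, mul_zero]

end Trp

end CYJ
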