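import Pool.Agent.Helper21.CY.Cl2
import Pool.Agent.Helper98.MH.Onb

/-!
Project CY, case A, `m = 1`: the Clifford relations on `U`.
-/

open Matrix MH

namespace CYJ

variable {n : Type*} [Fintype n] [DecidableEq n]

/-- an idempotent of trace zero vanishes -/
theorem idem_zero {M : Matrix n n ℂ} (h1 : M * M = M) (h2 : M.trace = 0) : M = 0 := by
  have h3 := MH.rank_eq_trace h1
  rw [h2] at h3
  have h4 : M.rank = 0 := by exact_mod_cast h3
  by_contra h5
  have h6 : ∃ v : n → ℂ, M *ᵥ v ≠ 0 := by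
    by_contra h7
    push Not at h7
    apply h5
    ext i j
    have h8 := congrFun (h7 (Pi.single j 1)) i
    simpa using h8
  obtain ⟨v, hv⟩ := h6
  unfold Matrix.rank at h4
  have h7 : LinearMap.range M.mulVecLin = ⊥ := Submodule.finrank_eq_zero.1 h4
  have h8 : M.mulVecLin v ∈ LinearMap.range M.mulVecLin := ⟨v, rfl⟩
  rw [h7, Submodule.mem_bot] at h8
  exact hv h8

/-- the projection onto `J₁ v` -/
noncomputable def RR {d : ℕ} (c : ℝ) (s : Matrix n n ℂ) (g : Fin d → Matrix n n ℂ) : Matrix n n ℂ :=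
  (c : ℂ)⁻¹ • ∑ i, g i * (sᴴ * s) * (g i)ᴴ

/-- the projection onto `J₁ᴴ v'` -/
noncomputable def RS {d : ℕ} (c : ℝ) (s : Matrix n n ℂ) (g : Fin d → Matrix n n ℂ) : Matrix n n ℂ :=
  (c : ℂ)⁻¹ • ∑ i, (g i)ᴴ * s * (sᴴ * g i)

theorem agR {d : ℕ} {c : ℝ} {s : Matrix n n ℂ} {g : Fin d → Matrix n n ℂ} {A B : Matrix n n ℂ}
    (h : ∀ i, A * (g i * (sᴴ * s)) = B * (g i * (sᴴ * s))) : A * RR c s g = B * RR c s g := by
  unfold RR
  rw [mul_smul_comm, mul_smul_comm, Finset.mul_sum, Finset.mul_sum]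
  congr 1
  refine Finset.sum_congr rfl fun i _ => ?_
  rw [← mul_assoc, ← mul_assoc B, h]

theorem agS {d : ℕ} {c : ℝ} {s : Matrix n n ℂ} {g : Fin d → Matrix n n ℂ} {A B : Matrix n n ℂ}
    (h : ∀ i, A * ((g i)ᴴ * s) = B * ((g i)ᴴ * s)) : A * RS c s g = B * RS c s g := by
  unfold RS
  rw [mul_smul_comm, mul_smul_comm, Finset.mul_sum, Finset.mul_sum]
  congr 1
  refine Finset.sum_congr rfl fun i _ => ?_
  rw [← mul_assoc, ← mul_assoc B, h]

namespace Trp

variable {J : Submodule ℂ (Matrix n n ℂ)} {h s : Matrix n n ℂ} {c k : ℝ} {N : ℕ}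
  {f : Fin N → Matrix n n ℂ} {e u : Matrix n n ℂ} (T : Trp J e u) (D : Jor J h s c k N f) (hm : c * nrm e = 1)
  {d1 d0 : ℕ} {g1 : Fin d1 → Matrix n n ℂ} {g0 : Fin d0 → Matrix n n ℂ} {r : ℝ}
  (h1 : ONB (Jw J u (-1)) g1) (h0 : ONB (Jw J u 0) g0)
  (hg : ONB J (Sum.elim (fun _ : Unit => (r : ℂ) • e) (Sum.elim g1 g0))) (hk : 0 < k)
include D h1

theorem pxyp {x y : Matrix n n ℂ} (hx : x ∈ J) (hy : y ∈ J) :
    (sᴴ * s) * xᴴ * (y * (sᴴ * s)) = ((c : ℂ) * hs x y) • (sᴴ * s) := by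
  have h2 : (sᴴ * s) * xᴴ * (y * (sᴴ * s)) = (sᴴ * s) * (xᴴ * y) * (sᴴ * s) := by simp only [mul_assoc]
  rw [h2, D.p1, D.cp x hx y hy]
  rfl

theorem RR_fix {x : Matrix n n ℂ} (hx : x ∈ Jw J u (-1)) : RR c s g1 * (x * (sᴴ * s)) = x * (sᴴ * s) := by
  unfold RR
  rw [smul_mul_assoc, Finset.sum_mul]
  have h2 : ∀ i, g1 i * (sᴴ * s) * (g1 i)ᴴ * (x * (sᴴ * s)) = (c : ℂ) • (hs (g1 i) x • (g1 i * (sᴴ * s))) := by
    intro i
    have h3 : g1 i * (sᴴ * s) * (g1 i)ᴴ * (x * (sᴴ * s)) = g1 i * ((sᴴ * s) * (g1 i)ᴴ * (x * (sᴴ * s))) := by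
      simp only [mul_assoc]
    rw [h3, pxyp D h1 (h1.mem i).1 hx.1, mul_smul_comm, smul_smul]
  rw [Finset.sum_congr rfl (fun i _ => h2 i), ← Finset.smul_sum, smul_smul, inv_mul_cancel₀ D.cC, one_smul]
  conv_rhs => rw [h1.exp x hx, Finset.sum_mul]
  exact Finset.sum_congr rfl fun i _ => by rw [smul_mul_assoc]

theorem RS_fix {x : Matrix n n ℂ} (hx : x ∈ Jw J u (-1)) : RS c s g1 * (xᴴ * s) = xᴴ * s := by
  unfold RS
  rw [smul_mul_assoc, Finset.sum_mul]
  have h2 : ∀ i, (g1 i)ᴴ * s * (sᴴ * g1 i) * (xᴴ * s) = (c : ℂ) • (star (hs (g1 i) x) • ((g1 i)ᴴ * s)) := by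
    intro i
    have h3 : (g1 i)ᴴ * s * (sᴴ * g1 i) * (xᴴ * s) = (g1 i)ᴴ * (s * (sᴴ * (g1 i * xᴴ) * s)) := by
      simp only [mul_assoc]
    have h4 : ((s * sᴴ) * (g1 i * xᴴ)).trace = c * star (hs (g1 i) x) := by
      rw [D.cq _ (h1.mem i).1 x hx.1, hs_conj, Matrix.trace_mul_comm]
      rfl
    rw [h3, D.shms, h4, mul_smul_comm, D.sp, mul_smul_comm, smul_smul]
  rw [Finset.sum_congr rfl (fun i _ => h2 i), ← Finset.smul_sum, smul_smul, inv_mul_cancel₀ D.cC, one_smul]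
  conv_rhs => rw [h1.exp x hx, Matrix.conjTranspose_sum, Finset.sum_mul]
  exact Finset.sum_congr rfl fun i _ => by rw [Matrix.conjTranspose_smul, smul_mul_assoc]

theorem RRRR : RR c s g1 * RR c s g1 = RR c s g1 := by
  have h2 := agR (c := c) (s := s) (g := g1) (A := RR c s g1) (B := 1)
    (fun i => by rw [RR_fix D h1 (h1.mem i), one_mul])
  rw [one_mul] at h2
  exact h2

theorem RSRS : RS c s g1 * RS c s g1 = RS c s g1 := by
  have h2 := agS (c := c) (s := s) (g := g1) (A := RS c s g1) (B := 1)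
    (fun i => by rw [RS_fix D h1 (h1.mem i), one_mul])
  rw [one_mul] at h2
  exact h2

omit h1 D in
theorem tr_RR (M : Matrix n n ℂ) : (M * RR c s g1).trace = (c : ℂ)⁻¹ * ∑ i, ((sᴴ * s) * ((g1 i)ᴴ * M * g1 i)).trace := by
  unfold RR
  rw [mul_smul_comm, Matrix.trace_smul, Finset.mul_sum, Matrix.trace_sum, smul_eq_mul]
  congr 1
  refine Finset.sum_congr rfl fun i _ => ?_
  have h2 : M * (g1 i * (sᴴ * s) * (g1 i)ᴴ) = (M * g1 i) * ((sᴴ * s) * (g1 i)ᴴ) := by simp only [mul_assoc]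
  rw [h2, Matrix.trace_mul_comm (M * g1 i)]
  simp only [mul_assoc]

theorem tr_RR1 : (RR c s g1).trace = d1 := by
  have h2 := tr_RR (c := c) (s := s) (g1 := g1) 1
  rw [one_mul] at h2
  rw [h2]
  have h3 : ∀ i, ((sᴴ * s) * ((g1 i)ᴴ * 1 * g1 i)).trace = (c : ℂ) := by
    intro i
    rw [mul_one, D.cp _ (h1.mem i).1 _ (h1.mem i).1, tr_self, h1.nrm_one]
    simp
  rw [Finset.sum_congr rfl (fun i _ => h3 i), Finset.sum_const, Finset.card_univ, Fintype.card_fin, nsmul_eq_mul]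
  have := D.cC
  field_simp

theorem tr_RS1 : (RS c s g1).trace = d1 := by
  unfold RS
  rw [Matrix.trace_smul, Matrix.trace_sum, smul_eq_mul]
  have h3 : ∀ i, ((g1 i)ᴴ * s * (sᴴ * g1 i)).trace = (c : ℂ) := by
    intro i
    have h4 : ((g1 i)ᴴ * s * (sᴴ * g1 i)).trace = ((s * sᴴ) * (g1 i * (g1 i)ᴴ)).trace := by
      rw [mul_assoc (g1 i)ᴴ, Matrix.trace_mul_comm]
      simp only [mul_assoc]
    rw [h4, D.cq _ (h1.mem i).1 _ (h1.mem i).1, Matrix.trace_mul_comm, tr_self, h1.nrm_one]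
    simp
  rw [Finset.sum_congr rfl (fun i _ => h3 i), Finset.sum_const, Finset.card_univ, Fintype.card_fin, nsmul_eq_mul]
  have := D.cC
  field_simp

include T hm

/-- `z U' ⊆ U`, `y U ⊆ U'` -/
theorem yRR {y : Matrix n n ℂ} (hy : y ∈ Jw J u 0) : RS c s g1 * (y * RR c s g1) = y * RR c s g1 := by
  rw [← mul_assoc]
  refine agR fun i => ?_
  obtain ⟨x', hx', e1⟩ := T.yU D hm hy (h1.mem i)
  rw [mul_assoc, e1, RS_fix D h1 hx']

theorem zRS {z : Matrix n n ℂ} (hz : zᴴ ∈ Jw J u 0) : RR c s g1 * (z * RS c s g1) = z * RS c s g1 := by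
  rw [← mul_assoc]
  refine agS fun i => ?_
  obtain ⟨x', hx', e1⟩ := T.zU' D hm hz (h1.mem i)
  rw [mul_assoc, e1, RR_fix D h1 hx']

theorem zyRR {y z : Matrix n n ℂ} (hy : y ∈ Jw J u 0) (hz : zᴴ ∈ Jw J u 0) :
    RR c s g1 * (z * (y * RR c s g1)) = z * (y * RR c s g1) := by
  rw [← yRR T D hm h1 hy, ← mul_assoc z, ← mul_assoc (RR c s g1), zRS T D hm h1 hz]

include hg hk h0

theorem tr_zy {y z : Matrix n n ℂ} (P : Par J e u s y z) (hb : bb e s y y = 2) :
    (z * (y * RR c s g1)).trace = d1 := by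
  set Z := ad z y + u - (2 : ℂ) • h with hZ
  have hhs : (2 : ℂ) • h * s = -((3 : ℂ) • s) := by
    rw [smul_mul_assoc, D.es]
    module
  have z1 : Z * (sᴴ * s) = 0 := by
    rw [hZ, sub_mul, add_mul, T.Hp D hm P, hb, T.up1 D hm, smul_mul_assoc, D.hp]
    module
  have z2 : Z * s = 0 := by
    rw [hZ, sub_mul, add_mul, T.Hs D hm P, hb, T.us1 D hm, hhs]
    module
  have z3 : Z * (e * (sᴴ * s)) = 0 := by
    rw [hZ, sub_mul, add_mul, T.Hep D hm P, hb, T.wep D hm, smul_mul_assoc, D.h_half T.mem]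
    module
  have z4 : ∀ y' ∈ Jw J u 0, Z * (y' * (sᴴ * s)) = 0 := by
    intro y' hy'
    rw [hZ, sub_mul, add_mul, T.Hyp D hm P hy', T.w0p D hm hy', smul_mul_assoc, D.h_half hy'.1]
    module
  have z5 : ∀ x ∈ Jw J u (-1), Z * (x * (sᴴ * s)) = z * (y * (x * (sᴴ * s))) - x * (sᴴ * s) := by
    intro x hx
    rw [hZ, sub_mul, add_mul, T.w1p D hm hx, smul_mul_assoc, D.h_half hx.1, ad_apply, sub_mul, mul_assoc, mul_assoc,
      T.zxp D hm P.z0 hx, mul_zero]
    module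
  have hth : h.trace = 0 := by
    have h2 := congrArg Matrix.trace D.kap
    rw [Matrix.trace_sum, Matrix.trace_smul, smul_eq_mul] at h2
    have h3 : ∀ i, (ad (f i)ᴴ (f i)).trace = 0 := by
      intro i
      rw [ad_apply, Matrix.trace_sub, Matrix.trace_mul_comm, sub_self]
    rw [Finset.sum_eq_zero (fun i _ => h3 i)] at h2
    rcases mul_eq_zero.1 h2.symm with h4 | h4
    · exact absurd (Complex.ofReal_eq_zero.1 h4) hk.ne'
    · exact h4
  have ztr : Z.trace = 0 := by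
    rw [hZ, T.def_u, ad_apply, ad_apply, Matrix.trace_sub, Matrix.trace_add, Matrix.trace_sub, Matrix.trace_sub,
      Matrix.trace_smul, hth, Matrix.trace_mul_comm z, Matrix.trace_mul_comm eᴴ]
    simp
  have zJ : ∀ x ∈ J, ad Z x ∈ J := by
    intro x hx
    have h2 : ad Z x = ad (ad z y) x + ad u x - (2 : ℂ) • ad h x := by
      rw [hZ, sub_eq_add_neg, ad_add_left, ad_add_left, ad_neg_left, ad_smul_left]
      abel
    rw [h2, D.deg x hx]
    exact J.sub_mem (J.add_mem (HJ D P hx) (T.uJ D hx)) (J.smul_mem _ (J.neg_mem hx))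
  have key := D.tr_zero hg z1 z2 ztr zJ hk.le
  rw [Fintype.sum_sum_type, Fintype.sum_sum_type] at key
  simp only [Sum.elim_inl, Sum.elim_inr] at key
  have q1 : ∀ X : Matrix n n ℂ, ((sᴴ * s) * (Xᴴ * Z * X)).trace = (Xᴴ * (Z * (X * (sᴴ * s)))).trace := by
    intro X
    rw [Matrix.trace_mul_comm]
    simp only [mul_assoc]
  have k1 : ∑ _i : Unit, ((sᴴ * s) * (((r : ℂ) • e)ᴴ * Z * ((r : ℂ) • e))).trace = 0 := by
    refine Finset.sum_eq_zero fun _ _ => ?_
    rw [q1, smul_mul_assoc, mul_smul_comm, z3, smul_zero, mul_zero, Matrix.trace_zero]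
  have k2 : ∑ i, ((sᴴ * s) * ((g0 i)ᴴ * Z * g0 i)).trace = 0 := by
    refine Finset.sum_eq_zero fun i _ => ?_
    rw [q1, z4 _ (h0.mem i), mul_zero, Matrix.trace_zero]
  rw [k1, k2, zero_add, add_zero] at key
  have k3 : ∀ i, ((sᴴ * s) * ((g1 i)ᴴ * Z * g1 i)).trace =
      ((sᴴ * s) * ((g1 i)ᴴ * (z * y) * g1 i)).trace - ((sᴴ * s) * ((g1 i)ᴴ * 1 * g1 i)).trace := by
    intro i
    rw [q1, z5 _ (h1.mem i), mul_sub, Matrix.trace_sub]
    congr 1
    · rw [Matrix.trace_mul_comm (sᴴ * s)]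
      simp only [mul_assoc]
    · rw [Matrix.trace_mul_comm (sᴴ * s)]
      simp only [mul_assoc, one_mul]
  rw [Finset.sum_congr rfl (fun i _ => k3 i), Finset.sum_sub_distrib, sub_eq_zero] at key
  rw [← mul_assoc, tr_RR, key, ← tr_RR, one_mul, tr_RR1 D h1]

/-- `z y = 1` on `U` -/
theorem zy_one {y z : Matrix n n ℂ} (P : Par J e u s y z) (hb : bb e s y y = 2) :
    z * (y * RR c s g1) = RR c s g1 := by
  have t1 := tr_zy T D hm h1 h0 hg hk P hb
  have e1 : y * (z * (y * RR c s g1)) = y * RR c s g1 := by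
    have h2 := agR (c := c) (s := s) (g := g1) (A := y * (z * y)) (B := y) (fun i => by
      have h3 := T.yzy D hm P (h1.mem i)
      rw [hb, div_self (by norm_num : (2 : ℂ) ≠ 0), one_smul] at h3
      simp only [mul_assoc] at h3 ⊢
      exact h3)
    simp only [mul_assoc] at h2
    exact h2
  have e2 := zyRR T D hm h1 P.y0 P.z0
  have e3 := RRRR D h1
  set R := RR c s g1 with hR
  set Q := z * (y * R) with hQ
  have q1 : Q * R = Q := by rw [hQ, mul_assoc, mul_assoc, e3]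
  have q2 : Q * Q = Q := by
    calc Q * Q = z * (y * (R * Q)) := by rw [hQ]; simp only [mul_assoc]
      _ = z * (y * Q) := by rw [e2]
      _ = Q := by rw [hQ, e1]
  have q3 : (R - Q) * (R - Q) = R - Q := by
    rw [sub_mul, mul_sub, mul_sub, e3, e2, q1, q2]
    abel
  have q4 : (R - Q).trace = 0 := by rw [Matrix.trace_sub, t1, hR, tr_RR1 D h1, sub_self]
  exact (sub_eq_zero.1 (idem_zero q3 q4)).symm

/-- `y z = 1` on `U'` -/
theorem yz_one {y z : Matrix n n ℂ} (P : Par J e u s y z) (hb : bb e s y y = 2) :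
    y * (z * RS c s g1) = RS c s g1 := by
  have e1 := zy_one T D hm h1 h0 hg hk P hb
  have e2 := zRS T D hm h1 P.z0
  have e3 := yRR T D hm h1 P.y0
  have e4 := RSRS D h1
  have e5 : (RR c s g1).trace = d1 := tr_RR1 D h1
  have e6 : (RS c s g1).trace = d1 := tr_RS1 D h1
  set R := RR c s g1 with hR
  set S := RS c s g1 with hS
  set Q := y * (z * S) with hQ
  have q0 : Q = y * (R * (z * S)) := by rw [hQ, e2]
  have q0' : S * Q = Q := by
    rw [q0]
    have : S * (y * (R * (z * S))) = (S * (y * R)) * (z * S) := by simp only [mul_assoc]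
    rw [this, e3]
    simp only [mul_assoc]
  have q1 : Q * S = Q := by rw [hQ, mul_assoc, mul_assoc, e4]
  have q2 : Q * Q = Q := by
    calc Q * Q = y * (z * (S * Q)) := by rw [hQ]; simp only [mul_assoc]
      _ = y * (z * (y * (R * (z * S)))) := by rw [q0', q0]
      _ = y * ((z * (y * R)) * (z * S)) := by simp only [mul_assoc]
      _ = Q := by rw [e1, ← q0]
  have q3 : (S - Q) * (S - Q) = S - Q := by
    rw [sub_mul, mul_sub, mul_sub, e4, q0', q1, q2]
    abel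
  have q4 : (S - Q).trace = 0 := by
    have h2 : Q.trace = d1 := by
      have h3 : Q.trace = (z * (S * (y * R))).trace := by
        rw [q0, ← mul_assoc, Matrix.trace_mul_comm]
        simp only [mul_assoc]
      rw [h3, e3, e1, e5]
    rw [Matrix.trace_sub, h2, e6, sub_self]
  exact (sub_eq_zero.1 (idem_zero q3 q4)).symm

/-- polarisation -/
theorem zy_anti {y z y' z' : Matrix n n ℂ} (P : Par J e u s y z) (P' : Par J e u s y' z') (hb : bb e s y y = 2)
    (hb' : bb e s y' y' = 2) (hbb : bb e s y y' = 0) :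
    z * (y' * RR c s g1) = -(z' * (y * RR c s g1)) := by
  obtain ⟨a, ha⟩ : ∃ a : ℂ, a * a = 1 / 2 := by
    obtain ⟨a, ha⟩ := IsSquare.sq (1 : ℂ) |>.elim (fun _ _ => IsAlgClosed.exists_pow_nat_eq (1 / 2 : ℂ) (n := 2) (by norm_num))
    exact ⟨a, by rw [← sq]; exact ha⟩
  have P2 := (P.add P').smul a
  have hb2 : bb e s (a • (y + y')) (a • (y + y')) = 2 := by
    have h2 : bb e s (a • (y + y')) (a • (y + y')) =
        a * a * (bb e s y y + bb e s y y' + bb e s y' y + bb e s y' y') := by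
      unfold bb
      simp only [smul_mul_assoc, mul_smul_comm, smul_smul, Matrix.trace_smul, smul_eq_mul, add_mul, mul_add,
        Matrix.trace_add]
      ring
    rw [h2, hb, hb', bb_comm (D.comm y' P'.yJ y P.yJ), hbb, ha]
    norm_num
  have h3 := zy_one T D hm h1 h0 hg hk P2 hb2
  have h4 := zy_one T D hm h1 h0 hg hk P hb
  have h5 := zy_one T D hm h1 h0 hg hk P' hb'
  have h30 : a • (z + z') * (a • (y + y') * RR c s g1) = (a * a) • (z * (y * RR c s g1) + z' * (y * RR c s g1) +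
      (z * (y' * RR c s g1) + z' * (y' * RR c s g1))) := by
    rw [smul_mul_assoc, smul_mul_assoc, mul_smul_comm, smul_smul]
    congr 1
    rw [add_mul y, mul_add, add_mul, add_mul]
  rw [h30, h4, h5, ha] at h3
  have h6 : (2 : ℂ) • ((1 / 2 : ℂ) • (RR c s g1 + z' * (y * RR c s g1) + (z * (y' * RR c s g1) + RR c s g1))) =
      (2 : ℂ) • RR c s g1 := by rw [h3]
  rw [smul_smul, show (2 : ℂ) * (1 / 2) = 1 by norm_num, one_smul, two_smul] at h6
  rw [eq_neg_iff_add_eq_zero]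
  have h7 : z * (y' * RR c s g1) + z' * (y * RR c s g1) = (RR c s g1 + z' * (y * RR c s g1) +
      (z * (y' * RR c s g1) + RR c s g1)) - (RR c s g1 + RR c s g1) := by abel
  rw [h7, h6, sub_self]

end Trp

end CYJ
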