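import Pool.Agent.Helper21.CY.Cl3
import Pool.Agent.Helper71.CY.Cliff

/-!
Project CY, case A: the end of the proof.
-/

open Matrix MH

namespace CYJ

variable {n : Type*} [Fintype n] [DecidableEq n]

/-- the form on `J₀` as a bilinear form -/
noncomputable def bF (J : Submodule ℂ (Matrix n n ℂ)) (u e s : Matrix n n ℂ) : LinearMap.BilinForm ℂ (Jw J u 0) :=
  LinearMap.mk₂ ℂ (fun a b => bb e s (a : Matrix n n ℂ) (b : Matrix n n ℂ))
    (fun a a' b => by simp only [bb, Submodule.coe_add, add_mul, mul_add, Matrix.trace_add])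
    (fun t a b => by simp only [bb, Submodule.coe_smul, smul_mul_assoc, mul_smul_comm, Matrix.trace_smul])
    (fun a b b' => by simp only [bb, Submodule.coe_add, mul_add, Matrix.trace_add])
    (fun t a b => by simp only [bb, Submodule.coe_smul, mul_smul_comm, Matrix.trace_smul])

theorem bF_apply (J : Submodule ℂ (Matrix n n ℂ)) (u e s : Matrix n n ℂ) (a b : Jw J u 0) :
    bF J u e s a b = bb e s (a : Matrix n n ℂ) (b : Matrix n n ℂ) := rfl

namespace Trp

variable {J : Submodule ℂ (Matrix n n ℂ)} {h s : Matrix n n ℂ} {c k : ℝ} {N : ℕ}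
  {f : Fin N → Matrix n n ℂ} {e u : Matrix n n ℂ} (T : Trp J e u) (D : Jor J h s c k N f) (hm : c * nrm e = 1)
include T D hm

theorem exists_orth : ∃ y : Fin (Module.finrank ℂ (Jw J u 0)) → Matrix n n ℂ, (∀ i, y i ∈ Jw J u 0) ∧
    (∀ i, bb e s (y i) (y i) = 2) ∧ ∀ i j, i ≠ j → bb e s (y i) (y j) = 0 := by
  have hsym : LinearMap.IsSymm (bF J u e s) := by
    refine ⟨fun a b => ?_⟩
    rw [RingHom.id_apply, bF_apply, bF_apply]
    exact bb_comm (D.comm _ a.2.1 _ b.2.1)
  have : Invertible (2 : ℂ) := invertibleOfNonzero (by norm_num)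
  obtain ⟨v, hv⟩ := LinearMap.BilinForm.exists_orthogonal_basis hsym
  have hsep : (bF J u e s).SeparatingLeft := by
    intro a ha
    apply Subtype.ext
    exact T.bb_nondeg D hm a.2 fun y' hy' => ha ⟨y', hy'⟩
  have hne : ∀ i, bb e s (v i : Matrix n n ℂ) (v i : Matrix n n ℂ) ≠ 0 := fun i =>
    hv.not_isOrtho_basis_self_of_separatingLeft hsep i
  have hroot : ∀ i, ∃ a : ℂ, a ^ 2 = 2 / bb e s (v i : Matrix n n ℂ) (v i : Matrix n n ℂ) := fun i =>
    IsAlgClosed.exists_pow_nat_eq _ (n := 2) (by norm_num)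
  choose a ha using hroot
  have hsm : ∀ (t t' : ℂ) (x x' : Matrix n n ℂ), bb e s (t • x) (t' • x') = t * t' * bb e s x x' := by
    intro t t' x x'
    unfold bb
    simp only [smul_mul_assoc, mul_smul_comm, smul_smul, Matrix.trace_smul, smul_eq_mul]
    ring
  refine ⟨fun i => a i • (v i : Matrix n n ℂ), fun i => Submodule.smul_mem _ _ (v i).2, fun i => ?_, fun i j hij => ?_⟩
  · rw [hsm, ← sq, ha, div_mul_cancel₀ _ (hne i)]
  · rw [hsm]
    have h1 : bb e s (v i : Matrix n n ℂ) (v j : Matrix n n ℂ) = 0 := hv hij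
    rw [h1, mul_zero]

end Trp

theorem pow_big (m : ℕ) (hm : 5 ≤ m) : 4 * m < 2 ^ m := by
  induction m, hm using Nat.le_induction with
  | base => norm_num
  | succ m hm ih => rw [pow_succ]; omega

/-- **Main theorem of case A.** -/
theorem Jor.main {J : Submodule ℂ (Matrix n n ℂ)} {h s : Matrix n n ℂ} {c k : ℝ} {N : ℕ}
    {f : Fin N → Matrix n n ℂ} (D : Jor J h s c k N f) (hN : 1 ≤ N) : N ∈ ({1, 3, 6, 9, 15, 27} : Finset ℕ) := by
  obtain ⟨e, u, T⟩ := D.exists_trp hN
  obtain ⟨r, d1, d0, g1, g0, hr, hrr, h1, h0, hg⟩ := T.exists_basis D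
  obtain ⟨n1, n2, n3⟩ := T.eqs D hrr h1 h0 hg
  obtain ⟨c1, k1⟩ := D.numbers hN
  have c1' : c * ((N : ℝ) + 9) = 3 := by exact_mod_cast c1
  have k1' : k * ((N : ℝ) + 9) = 2 * N := by exact_mod_cast k1
  have ht : 0 < nrm e := lt_of_le_of_ne (nrm_nonneg e) (fun h0 => T.ne (nrm_eq_zero h0.symm))
  have hNr : (0 : ℝ) < N := by exact_mod_cast hN
  have hk : 0 < k := by
    by_contra hcon
    push Not at hcon
    nlinarith
  rcases arith hN ht D.c0 c1' k1' n1 n2 n3 with h2 | ⟨hm, a, ha, hd1, hd0⟩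
  · rw [h2]
    simp
  -- the Clifford relations
  have hfr : Module.finrank ℂ (Jw J u 0) = a + 2 := by
    obtain ⟨g, hg'⟩ := exists_onb (Jw J u 0)
    have h2 := onb_card hg' h0
    rw [Fintype.card_fin, Fintype.card_fin] at h2
    omega
  have hex := T.exists_orth D hm
  rw [hfr] at hex
  obtain ⟨y, hy, hy2, hyy⟩ := hex
  have hpar : ∀ i, ∃ z, Par J e u s (y i) z := fun i => T.exists_par D hm (hy i)
  choose z hz using hpar
  have hone : ∀ i, z i * (y i * RR c s g1) = RR c s g1 := fun i => T.zy_one D hm h1 h0 hg hk (hz i) (hy2 i)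
  have htwo : ∀ i, y i * (z i * RS c s g1) = RS c s g1 := fun i => T.yz_one D hm h1 h0 hg hk (hz i) (hy2 i)
  have hanti : ∀ i j, i ≠ j → z i * (y j * RR c s g1) = -(z j * (y i * RR c s g1)) := fun i j hij =>
    T.zy_anti D hm h1 h0 hg hk (hz i) (hz j) (hy2 i) (hy2 j) (hyy i j hij)
  have hRS : ∀ i, RS c s g1 * (y i * RR c s g1) = y i * RR c s g1 := fun i => T.yRR D hm h1 (hy i)
  have hRR : ∀ i j, RR c s g1 * (z i * (y j * RR c s g1)) = z i * (y j * RR c s g1) := fun i j =>
    T.zyRR D hm h1 (hy j) (hz i).z0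
  have hR2 : RR c s g1 * RR c s g1 = RR c s g1 := Trp.RRRR D h1
  have hprod : ∀ i j : Fin (a + 1), (z 0 * (y i.succ * RR c s g1)) * (z 0 * (y j.succ * RR c s g1)) =
      -(z i.succ * (y j.succ * RR c s g1)) := by
    intro i j
    calc (z 0 * (y i.succ * RR c s g1)) * (z 0 * (y j.succ * RR c s g1)) =
        -((z i.succ * (y 0 * RR c s g1)) * (z 0 * (y j.succ * RR c s g1))) := by
          rw [hanti 0 i.succ (Fin.succ_ne_zero i).symm, neg_mul]
      _ = -(z i.succ * (y 0 * (RR c s g1 * (z 0 * (y j.succ * RR c s g1))))) := by simp only [mul_assoc]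
      _ = -(z i.succ * (y 0 * (z 0 * (RS c s g1 * (y j.succ * RR c s g1))))) := by rw [hRR, hRS]
      _ = -(z i.succ * ((y 0 * (z 0 * RS c s g1)) * (y j.succ * RR c s g1))) := by simp only [mul_assoc]
      _ = _ := by rw [htwo 0, hRS]
  have hdvd := CY.cliff (a + 1) (RR c s g1) (2 * a) (fun i => z 0 * (y i.succ * RR c s g1)) hR2
    (by rw [Trp.tr_RR1 D h1, hd1])
    (fun i => hRR 0 i.succ)
    (fun i => by
      show z 0 * (y i.succ * RR c s g1) * RR c s g1 = _
      rw [mul_assoc, mul_assoc, hR2])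
    (fun i => by
      show z 0 * (y i.succ * RR c s g1) * (z 0 * (y i.succ * RR c s g1)) = _
      rw [hprod, hone])
    (fun i j hij => by
      show z 0 * (y i.succ * RR c s g1) * (z 0 * (y j.succ * RR c s g1)) =
        -(z 0 * (y j.succ * RR c s g1) * (z 0 * (y i.succ * RR c s g1)))
      rw [hprod, hprod, hanti i.succ j.succ (fun h => hij (Fin.succ_injective _ h))])
  -- arithmetic
  have ha8 : a ≤ 8 := by
    by_contra hcon
    push Not at hcon
    have h2 := Nat.le_of_dvd (by omega) hdvd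
    have h3 := pow_big ((a + 1) / 2) (by omega)
    omega
  have key : a = 0 ∨ a = 1 ∨ a = 2 ∨ a = 4 ∨ a = 8 := by
    clear hprod hRR hRS hanti htwo hone hz hyy hy2 hy hfr
    interval_cases a
    · omega
    · omega
    · omega
    · exfalso; revert hdvd; decide
    · omega
    · exfalso; revert hdvd; decide
    · exfalso; revert hdvd; decide
    · exfalso; revert hdvd; decide
    · omega
  rw [ha]
  rcases key with h2 | h2 | h2 | h2 | h2 <;> rw [h2] <;> decide

end CYJ
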