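import Pool.Agent.Helper21.CY.Tri

/-!
Project CY, case A: the decomposition of `J` under a minimal tripotent.
-/

open Matrix MH

namespace CYJ

variable {n : Type*} [Fintype n] [DecidableEq n]

/-- A minimal tripotent; `u = [eᴴ, e]`. -/
structure Trp (J : Submodule ℂ (Matrix n n ℂ)) (e u : Matrix n n ℂ) : Prop where
  mem : e ∈ J
  ne : e ≠ 0
  def_u : u = ad eᴴ e
  ue : ad u e = (-2 : ℂ) • e
  uniq : ∀ y ∈ J, ad u y = (-2 : ℂ) • y → ∃ a : ℂ, y = a • e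

/-- the weight spaces of `ad u` on `J` -/
def Jw (J : Submodule ℂ (Matrix n n ℂ)) (u : Matrix n n ℂ) (w : ℂ) : Submodule ℂ (Matrix n n ℂ) where
  carrier := {x | x ∈ J ∧ ad u x = w • x}
  add_mem' := fun {a b} ha hb => ⟨J.add_mem ha.1 hb.1, by rw [map_add, ha.2, hb.2, smul_add]⟩
  zero_mem' := ⟨J.zero_mem, by rw [map_zero, smul_zero]⟩
  smul_mem' := fun c a ha => ⟨J.smul_mem c ha.1, by rw [map_smul, ha.2, smul_comm]⟩

theorem mem_Jw {J : Submodule ℂ (Matrix n n ℂ)} {u x : Matrix n n ℂ} {w : ℂ} :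
    x ∈ Jw J u w ↔ x ∈ J ∧ ad u x = w • x := Iff.rfl

namespace Jor

variable {J : Submodule ℂ (Matrix n n ℂ)} {h s : Matrix n n ℂ} {c k : ℝ} {N : ℕ}
  {f : Fin N → Matrix n n ℂ} (D : Jor J h s c k N f)
include D

theorem exists_trp (hN : 1 ≤ N) : ∃ e u, Trp J e u := by
  obtain ⟨e, he, h0, h1, h2⟩ := D.exists_trip hN
  have h3 : ∀ y, ad (ad eᴴ e) y = -ad (ad e eᴴ) y := by
    intro y
    rw [ad_anti eᴴ e, ad_neg_left]
  refine ⟨e, ad eᴴ e, he, h0, rfl, ?_, ?_⟩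
  · rw [h3, h1, neg_smul]
  · intro y hy hy2
    refine h2 y hy ?_
    rw [h3, neg_smul, neg_inj] at hy2
    exact hy2

end Jor

namespace Trp

variable {J : Submodule ℂ (Matrix n n ℂ)} {h s : Matrix n n ℂ} {c k : ℝ} {N : ℕ}
  {f : Fin N → Matrix n n ℂ} {e u : Matrix n n ℂ} (T : Trp J e u) (D : Jor J h s c k N f)
include T

theorem uu : uᴴ = u := by
  rw [T.def_u, ad_star, Matrix.conjTranspose_conjTranspose, ← ad_anti]

theorem ueH : ad u eᴴ = (2 : ℂ) • eᴴ := by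
  have h1 := congrArg Matrix.conjTranspose T.ue
  rw [ad_star, T.uu, Matrix.conjTranspose_smul] at h1
  have h2 : star (-2 : ℂ) = -2 := by simp
  rw [h2, neg_smul, neg_inj] at h1
  exact h1

/-- the weight of the adjoint -/
theorem wH {x : Matrix n n ℂ} {w : ℝ} (hx : ad u x = (w : ℂ) • x) : ad u xᴴ = (-w : ℂ) • xᴴ := by
  have h1 := congrArg Matrix.conjTranspose hx
  rw [ad_star, T.uu, Matrix.conjTranspose_smul, Complex.star_def, Complex.conj_ofReal] at h1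
  rw [neg_smul, ← h1, neg_neg]

theorem jac1 (y : Matrix n n ℂ) : ad e (ad eᴴ y) = ad eᴴ (ad e y) - ad u y := by
  rw [ad_jacobi eᴴ e y, ← T.def_u]
  abel

theorem jac2 (y : Matrix n n ℂ) : ad u (ad eᴴ y) = ad eᴴ (ad u y) + (2 : ℂ) • ad eᴴ y := by
  rw [ad_jacobi u eᴴ y, T.ueH, ad_smul_left]
  abel

include D

theorem uJ {x : Matrix n n ℂ} (hx : x ∈ J) : ad u x ∈ J := by
  rw [T.def_u, ad_anti eᴴ e, ad_neg_left]
  exact J.neg_mem (D.trip e T.mem e T.mem x hx)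

theorem Bx {x : Matrix n n ℂ} (hx : x ∈ J) : ad e x = 0 := by
  rw [ad_apply, D.comm e T.mem x hx, sub_self]

theorem A3 {x : Matrix n n ℂ} (hx : x ∈ J) : ad eᴴ (ad eᴴ (ad eᴴ x)) = 0 := by
  have h1 : ad eᴴ (ad eᴴ x) = (-ad (ad e xᴴ) e)ᴴ := by
    rw [← ad_anti, ad_star, ad_star, Matrix.conjTranspose_conjTranspose, map_neg, neg_neg]
  rw [h1]
  have h2 : -ad (ad e xᴴ) e ∈ J := J.neg_mem (D.trip e T.mem x hx e T.mem)
  have h3 := congrArg Matrix.conjTranspose (T.Bx D h2)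
  rw [ad_star, Matrix.conjTranspose_zero, neg_eq_zero] at h3
  exact h3

theorem BA {x : Matrix n n ℂ} (hx : x ∈ J) : ad e (ad eᴴ x) = -ad u x := by
  rw [T.jac1, T.Bx D hx, map_zero, zero_sub]

theorem BA2 {x : Matrix n n ℂ} (hx : x ∈ J) : ad e (ad eᴴ (ad eᴴ x)) = (-2 : ℂ) • ad eᴴ (ad u x + x) := by
  rw [T.jac1, T.BA D hx, T.jac2, map_neg, map_add]
  module

theorem BA3 {x : Matrix n n ℂ} (hx : x ∈ J) :
    ad e (ad eᴴ (ad eᴴ (ad eᴴ x))) = (-3 : ℂ) • ad eᴴ (ad eᴴ (ad u x + (2 : ℂ) • x)) := by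
  rw [T.jac1, T.BA2 D hx, T.jac2, T.jac2]
  simp only [map_add, map_smul]
  module

theorem cubic {x : Matrix n n ℂ} (hx : x ∈ J) :
    ad u (ad u (ad u x)) + (3 : ℂ) • ad u (ad u x) + (2 : ℂ) • ad u x = 0 := by
  have hz : ∀ {a : ℂ} {M : Matrix n n ℂ}, a ≠ 0 → a • M = 0 → M = 0 := by
    intro a M ha h0
    rcases smul_eq_zero.1 h0 with h | h
    · exact absurd h ha
    · exact h
  have h1 : ad eᴴ (ad eᴴ (ad u x + (2 : ℂ) • x)) = 0 := by
    refine hz (a := -3) (by norm_num) ?_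
    rw [← T.BA3 D hx, T.A3 D hx, map_zero]
  have hy : ad u x + (2 : ℂ) • x ∈ J := J.add_mem (T.uJ D hx) (J.smul_mem _ hx)
  set y := ad u x + (2 : ℂ) • x with hyd
  have h2 : ad eᴴ (ad u y + y) = 0 := by
    refine hz (a := -2) (by norm_num) ?_
    rw [← T.BA2 D hy, h1, map_zero]
  have hz' : ad u y + y ∈ J := J.add_mem (T.uJ D hy) hy
  have h3 : ad u (ad u y + y) = 0 := by
    rw [← neg_eq_zero, ← T.BA D hz', h2, map_zero]
  rw [← h3, hyd]
  simp only [map_add, map_smul]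
  module

omit D in
theorem orth_w {x y : Matrix n n ℂ} {a b : ℝ} (hx : ad u x = (a : ℂ) • x) (hy : ad u y = (b : ℂ) • y) (hab : a ≠ b) :
    hs x y = 0 := by
  have h1 := hs_ad x u y
  rw [T.uu, hx, hy, hs_smul_right, hs_smul_left, Complex.star_def, Complex.conj_ofReal] at h1
  have h2 : ((b : ℂ) - a) * hs x y = 0 := by rw [sub_mul, h1, sub_self]
  rcases mul_eq_zero.1 h2 with h3 | h3
  · exact absurd (by exact_mod_cast (sub_eq_zero.1 h3).symm) hab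
  · exact h3

theorem split3 {x : Matrix n n ℂ} (hx : x ∈ J) : ∃ a : ℂ, ∃ x1 ∈ Jw J u (-1), ∃ x0 ∈ Jw J u 0,
    x = a • e + (x1 + x0) := by
  have hc := T.cubic D hx
  have h1 := T.uJ D hx
  have h2 := T.uJ D h1
  obtain ⟨a, ha⟩ := T.uniq ((1 / 2 : ℂ) • (ad u (ad u x) + ad u x)) (J.smul_mem _ (J.add_mem h2 h1)) (by
    have h3 : ad u (ad u (ad u x)) = -((3 : ℂ) • ad u (ad u x) + (2 : ℂ) • ad u x) := by
      rw [eq_neg_iff_add_eq_zero, ← add_assoc, hc]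
    rw [map_smul, map_add, h3]
    module)
  refine ⟨a, (-1 : ℂ) • (ad u (ad u x) + (2 : ℂ) • ad u x), ⟨J.smul_mem _ (J.add_mem h2 (J.smul_mem _ h1)), ?_⟩,
    (1 / 2 : ℂ) • (ad u (ad u x) + (3 : ℂ) • ad u x + (2 : ℂ) • x),
    ⟨J.smul_mem _ (J.add_mem (J.add_mem h2 (J.smul_mem _ h1)) (J.smul_mem _ hx)), ?_⟩, ?_⟩
  · have h3 : ad u (ad u (ad u x)) = -((3 : ℂ) • ad u (ad u x) + (2 : ℂ) • ad u x) := by
      rw [eq_neg_iff_add_eq_zero, ← add_assoc, hc]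
    rw [map_smul, map_add, map_smul, h3]
    module
  · rw [map_smul, map_add, map_add, map_smul, map_smul, hc, smul_zero, zero_smul]
  · rw [← ha]
    module

/-- An adapted orthonormal basis. -/
theorem exists_basis : ∃ (r : ℝ) (d1 d0 : ℕ) (g1 : Fin d1 → Matrix n n ℂ) (g0 : Fin d0 → Matrix n n ℂ),
    0 < r ∧ r * r * nrm e = 1 ∧ ONB (Jw J u (-1)) g1 ∧ ONB (Jw J u 0) g0 ∧
    ONB J (Sum.elim (fun _ : Unit => (r : ℂ) • e) (Sum.elim g1 g0)) := by
  obtain ⟨g1, hg1⟩ := exists_onb (Jw J u (-1))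
  obtain ⟨g0, hg0⟩ := exists_onb (Jw J u 0)
  have hne : 0 < nrm e := lt_of_le_of_ne (nrm_nonneg e) (fun h0 => T.ne (nrm_eq_zero h0.symm))
  set r : ℝ := (Real.sqrt (nrm e))⁻¹ with hr
  have hr0 : 0 < r := by positivity
  have hrr : r * r * nrm e = 1 := by
    rw [hr, ← mul_inv, Real.mul_self_sqrt hne.le, inv_mul_cancel₀ hne.ne']
  refine ⟨r, _, _, g1, g0, hr0, hrr, hg1, hg0, ?_⟩
  let R1 : Submodule ℂ (Matrix n n ℂ) := Jw J u (-1) ⊔ Jw J u 0
  have hw1 : ∀ x ∈ Jw J u (-1), ad u x = ((-1 : ℝ) : ℂ) • x := by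
    intro x hx
    rw [hx.2]
    congr 1
    push_cast
    rfl
  have hw0 : ∀ x ∈ Jw J u 0, ad u x = ((0 : ℝ) : ℂ) • x := by
    intro x hx
    rw [hx.2]
    congr 1
  have hwe : ad u e = ((-2 : ℝ) : ℂ) • e := by
    rw [T.ue]
    congr 1
    push_cast
    rfl
  have h1 : ONB R1 (Sum.elim g1 g0) := by
    refine hg1.union hg0 le_sup_left le_sup_right ?_ ?_
    · intro x hx y hy
      exact T.orth_w (hw1 x hx) (hw0 y hy) (by norm_num)
    · intro x hx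
      obtain ⟨a, ha, b, hb, e1⟩ := Submodule.mem_sup.1 hx
      exact ⟨a, ha, b, hb, e1.symm⟩
  have h2 : ONB (ℂ ∙ e) (fun _ : Unit => (r : ℂ) • e) := by
    refine ONB.of_span ?_ ?_ ?_
    · intro a b
      rw [hs_smul_left, hs_smul_right, hs_self, Complex.star_def, Complex.conj_ofReal, if_pos (Subsingleton.elim a b)]
      rw [← mul_assoc]
      exact_mod_cast hrr
    · intro _
      exact Submodule.smul_mem _ _ (Submodule.mem_span_singleton_self e)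
    · intro x hx
      obtain ⟨a, rfl⟩ := Submodule.mem_span_singleton.1 hx
      refine ⟨fun _ => a * (r : ℂ)⁻¹, ?_⟩
      have hrC : (r : ℂ) ≠ 0 := by exact_mod_cast hr0.ne'
      rw [Fintype.sum_unique, smul_smul, mul_assoc, inv_mul_cancel₀ hrC, mul_one]
  refine h2.union h1 ?_ ?_ ?_ ?_
  · rw [Submodule.span_singleton_le_iff_mem]
    exact T.mem
  · refine sup_le ?_ ?_
    · exact fun x hx => hx.1
    · exact fun x hx => hx.1
  · intro x hx y hy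
    obtain ⟨a, rfl⟩ := Submodule.mem_span_singleton.1 hx
    obtain ⟨y1, hy1, y0, hy0, rfl⟩ := Submodule.mem_sup.1 hy
    rw [hs_smul_left, hs_add_right, T.orth_w hwe (hw1 y1 hy1) (by norm_num), T.orth_w hwe (hw0 y0 hy0) (by norm_num),
      add_zero, mul_zero]
  · intro x hx
    obtain ⟨a, x1, hx1, x0, hx0, e1⟩ := T.split3 D hx
    exact ⟨a • e, Submodule.smul_mem _ _ (Submodule.mem_span_singleton_self e), x1 + x0,
      Submodule.add_mem_sup hx1 hx0, e1⟩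

end Trp

/-- orthonormal bases have the same number of elements -/
theorem onb_card {ι κ : Type*} [Fintype ι] [DecidableEq ι] [Fintype κ] [DecidableEq κ]
    {S : Submodule ℂ (Matrix n n ℂ)} {z : ι → Matrix n n ℂ} {y : κ → Matrix n n ℂ} (hz : ONB S z)
    (hy : ONB S y) : Fintype.card ι = Fintype.card κ := by
  have h1 := hz.indep_nrm hy LinearMap.id
  simp only [LinearMap.id_coe, id_eq, hz.nrm_one, hy.nrm_one, Finset.sum_const, Finset.card_univ, nsmul_eq_mul,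
    mul_one] at h1
  exact_mod_cast h1

end CYJ
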