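import Pool.Agent.Helper21.MH.Lev1

/-!
Project CY, case A. The part `J` of degree `-1` of a graded Lie algebra of Calabi-Yau type as a space of
commuting matrices closed under the triple product.
-/

open Matrix MH

namespace CYJ

variable {n : Type*} [Fintype n] [DecidableEq n]

/-- `J` is a space of commuting matrices of degree `-1` for `h`, closed under `[[x, yᴴ], z]`; `sᴴ s` and `s sᴴ`
are the projections on the lines of the eigenvalues `3/2`, `-3/2` of `h`. -/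
structure Jor (J : Submodule ℂ (Matrix n n ℂ)) (h s : Matrix n n ℂ) (c k : ℝ) (N : ℕ)
    (f : Fin N → Matrix n n ℂ) : Prop where
  comm : ∀ x ∈ J, ∀ y ∈ J, x * y = y * x
  trip : ∀ x ∈ J, ∀ y ∈ J, ∀ z ∈ J, ad (ad x yᴴ) z ∈ J
  deg : ∀ x ∈ J, ad h x = -x
  hh : hᴴ = h
  p1 : ∀ x, (sᴴ * s) * x * (sᴴ * s) = ((sᴴ * s) * x).trace • (sᴴ * s)
  pt : (sᴴ * s).trace = 1
  es : h * s = (-(3 / 2) : ℂ) • s
  se : s * h = (3 / 2 : ℂ) • s
  xs : ∀ x ∈ J, x * s = 0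
  sx : ∀ x ∈ J, s * x = 0
  c0 : 0 < c
  cp : ∀ x ∈ J, ∀ y ∈ J, ((sᴴ * s) * (xᴴ * y)).trace = c * (xᴴ * y).trace
  cq : ∀ x ∈ J, ∀ y ∈ J, ((s * sᴴ) * (x * yᴴ)).trace = c * (x * yᴴ).trace
  onb : ONB J f
  one : (1 : Matrix n n ℂ) = sᴴ * s + s * sᴴ + (c : ℂ)⁻¹ • ∑ i, f i * (sᴴ * s) * (f i)ᴴ +
    (c : ℂ)⁻¹ • ∑ i, (f i)ᴴ * (s * sᴴ) * f i
  kap : ∑ i, ad (f i)ᴴ (f i) = (k : ℂ) • h

/-- entries of degree zero -/
theorem deg_kill {h A B Z : Matrix n n ℂ} {α β δ : ℂ} (hA : A * h = α • A) (hB : h * B = β • B)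
    (hZ : ad h Z = δ • Z) (hne : α ≠ β + δ) : A * Z * B = 0 := by
  have h1 : A * h * Z * B = α • (A * Z * B) := by rw [hA, smul_mul_assoc, smul_mul_assoc]
  have h2 : A * h * Z * B = (β + δ) • (A * Z * B) := by
    have h3 : h * Z = Z * h + δ • Z := by
      rw [← hZ, ad_apply]
      abel
    rw [mul_assoc A h Z, h3, mul_add, add_mul, mul_smul_comm, smul_mul_assoc, ← mul_assoc A Z h, mul_assoc (A * Z) h B,
      hB, mul_smul_comm, ← add_smul]
  have h3 : (α - (β + δ)) • (A * Z * B) = 0 := by rw [sub_smul, ← h1, ← h2, sub_self]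
  rcases smul_eq_zero.1 h3 with h4 | h4
  · exact absurd (sub_eq_zero.1 h4) hne
  · exact h4

theorem deg_kill' {h A B : Matrix n n ℂ} {α β : ℂ} (hA : A * h = α • A) (hB : h * B = β • B)
    (hne : α ≠ β) : A * B = 0 := by
  have h1 : A * h * B = α • (A * B) := by rw [hA, smul_mul_assoc]
  have h2 : A * h * B = β • (A * B) := by rw [mul_assoc, hB, mul_smul_comm]
  have h3 : (α - β) • (A * B) = 0 := by rw [sub_smul, ← h1, ← h2, sub_self]
  rcases smul_eq_zero.1 h3 with h4 | h4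
  · exact absurd (sub_eq_zero.1 h4) hne
  · exact h4

omit [DecidableEq n] in
theorem onb_sum {ι κ : Type*} [Fintype ι] [DecidableEq ι] [Fintype κ] [DecidableEq κ]
    {S : Submodule ℂ (Matrix n n ℂ)} {z : ι → Matrix n n ℂ} {y : κ → Matrix n n ℂ} (hz : ONB S z)
    (hy : ONB S y) {M : Type*} [AddCommGroup M] [Module ℂ M] (F : Matrix n n ℂ →ₗ[ℂ] Matrix n n ℂ →ₗ[ℂ] M) :
    ∑ a, F (z a) (z a)ᴴ = ∑ b, F (y b) (y b)ᴴ := by
  have h1 : ∀ a, F (z a) (z a)ᴴ = ∑ b, hs (y b) (z a) • F (y b) (z a)ᴴ := by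
    intro a
    conv_lhs => rw [hy.exp (z a) (hz.mem a)]
    rw [map_sum, LinearMap.sum_apply]
    refine Finset.sum_congr rfl fun b _ => ?_
    rw [map_smul, LinearMap.smul_apply, ← hy.exp (z a) (hz.mem a)]
  simp_rw [h1]
  rw [Finset.sum_comm]
  refine Finset.sum_congr rfl fun b _ => ?_
  have h2 : (y b)ᴴ = ∑ a, hs (y b) (z a) • (z a)ᴴ := by
    conv_lhs => rw [hz.exp (y b) (hy.mem b)]
    rw [Matrix.conjTranspose_sum]
    refine Finset.sum_congr rfl fun a _ => ?_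
    rw [Matrix.conjTranspose_smul, hs_conj]
  rw [h2, map_sum]
  exact Finset.sum_congr rfl fun a _ => (map_smul _ _ _).symm

/-- `(a, b) ↦ a X b` -/
def bil1 (X : Matrix n n ℂ) : Matrix n n ℂ →ₗ[ℂ] Matrix n n ℂ →ₗ[ℂ] Matrix n n ℂ :=
  LinearMap.mk₂ ℂ (fun a b => a * X * b) (fun a a' b => by rw [add_mul, add_mul])
    (fun c a b => by rw [smul_mul_assoc, smul_mul_assoc]) (fun a b b' => by rw [mul_add])
    (fun c a b => by rw [mul_smul_comm])

/-- `(a, b) ↦ b X a` -/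
def bil2 (X : Matrix n n ℂ) : Matrix n n ℂ →ₗ[ℂ] Matrix n n ℂ →ₗ[ℂ] Matrix n n ℂ :=
  LinearMap.mk₂ ℂ (fun a b => b * X * a) (fun a a' b => by rw [mul_add])
    (fun c a b => by rw [mul_smul_comm]) (fun a b b' => by rw [add_mul, add_mul])
    (fun c a b => by rw [smul_mul_assoc, smul_mul_assoc])

namespace Jor

variable {J : Submodule ℂ (Matrix n n ℂ)} {h s : Matrix n n ℂ} {c k : ℝ} {N : ℕ}
  {f : Fin N → Matrix n n ℂ} (D : Jor J h s c k N f)
include D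

theorem cC : (c : ℂ) ≠ 0 := by exact_mod_cast D.c0.ne'

theorem pp : (sᴴ * s) * (sᴴ * s) = sᴴ * s := by
  have h1 := D.p1 1
  rw [mul_one, D.pt, one_smul] at h1
  exact h1

theorem sp : s * (sᴴ * s) = s := by
  have h1 : nrm (s * (sᴴ * s) - s) = 0 := by
    unfold nrm hs
    have h2 : (s * (sᴴ * s) - s)ᴴ * (s * (sᴴ * s) - s) = 0 := by
      rw [Matrix.conjTranspose_sub, Matrix.conjTranspose_mul, Matrix.conjTranspose_mul,
        Matrix.conjTranspose_conjTranspose]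
      have h3 : (sᴴ * s * sᴴ - sᴴ) * (s * (sᴴ * s) - s) =
          (sᴴ * s) * (sᴴ * s) * (sᴴ * s) - (sᴴ * s) * (sᴴ * s) - (sᴴ * s) * (sᴴ * s) + sᴴ * s := by
        noncomm_ring
      rw [h3, D.pp, D.pp]
      abel
    rw [h2]
    simp
  exact sub_eq_zero.1 (nrm_eq_zero h1)

theorem ps : (sᴴ * s) * sᴴ = sᴴ := by
  have h1 := congrArg Matrix.conjTranspose D.sp
  rw [Matrix.conjTranspose_mul, Matrix.conjTranspose_mul, Matrix.conjTranspose_conjTranspose] at h1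
  exact h1

theorem ph : (sᴴ * s) * h = (3 / 2 : ℂ) • (sᴴ * s) := by rw [mul_assoc, D.se, mul_smul_comm]

theorem hp : h * (sᴴ * s) = (3 / 2 : ℂ) • (sᴴ * s) := by
  have h1 := congrArg Matrix.conjTranspose D.ph
  rw [Matrix.conjTranspose_mul, Matrix.conjTranspose_smul, D.hh, Matrix.conjTranspose_mul,
    Matrix.conjTranspose_conjTranspose] at h1
  rw [h1]
  congr 1
  simp

theorem sHh : sᴴ * h = (-(3 / 2) : ℂ) • sᴴ := by
  have h1 := congrArg Matrix.conjTranspose D.es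
  rw [Matrix.conjTranspose_mul, Matrix.conjTranspose_smul, D.hh] at h1
  rw [h1]
  congr 1
  simp

theorem hsH : h * sᴴ = (3 / 2 : ℂ) • sᴴ := by
  have h1 := congrArg Matrix.conjTranspose D.se
  rw [Matrix.conjTranspose_mul, Matrix.conjTranspose_smul, D.hh] at h1
  rw [h1]
  congr 1
  simp

/-- `s M p` -/
theorem smp (M : Matrix n n ℂ) : s * M * (sᴴ * s) = ((sᴴ * s) * M).trace • s := by
  calc s * M * (sᴴ * s) = (s * (sᴴ * s)) * M * (sᴴ * s) := by rw [D.sp]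
    _ = s * ((sᴴ * s) * M * (sᴴ * s)) := by noncomm_ring
    _ = _ := by rw [D.p1, mul_smul_comm, D.sp]

/-- `sᴴ M s` -/
theorem shms (M : Matrix n n ℂ) : sᴴ * M * s = ((s * sᴴ) * M).trace • (sᴴ * s) := by
  have h1 : sᴴ * M * s = (sᴴ * s) * (sᴴ * M * s) * (sᴴ * s) := by
    calc sᴴ * M * s = ((sᴴ * s) * sᴴ) * M * (s * (sᴴ * s)) := by rw [D.ps, D.sp]
      _ = _ := by noncomm_ring
  rw [h1, D.p1]
  congr 1
  rw [← mul_assoc, ← mul_assoc, D.ps, Matrix.trace_mul_comm (sᴴ * M) s, ← mul_assoc]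

/-- `sᴴ M p` -/
theorem shmp (M : Matrix n n ℂ) : sᴴ * M * (sᴴ * s) = (sᴴ * M).trace • (sᴴ * s) := by
  have h1 : sᴴ * M * (sᴴ * s) = (sᴴ * s) * (sᴴ * M) * (sᴴ * s) := by
    rw [← mul_assoc (sᴴ * s) sᴴ M, D.ps]
  rw [h1, D.p1, ← mul_assoc (sᴴ * s) sᴴ M, D.ps]

theorem degH {x : Matrix n n ℂ} (hx : x ∈ J) : ad h xᴴ = xᴴ := by
  have h1 := congrArg Matrix.conjTranspose (D.deg x hx)
  rw [ad_star, D.hh, Matrix.conjTranspose_neg, neg_inj] at h1
  exact h1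

theorem deg1 {x : Matrix n n ℂ} (hx : x ∈ J) : ad h x = (-1 : ℂ) • x := by rw [D.deg x hx, neg_one_smul]

theorem deg2 {x : Matrix n n ℂ} (hx : x ∈ J) : ad h xᴴ = (1 : ℂ) • xᴴ := by rw [D.degH hx, one_smul]

theorem xHsH {x : Matrix n n ℂ} (hx : x ∈ J) : xᴴ * sᴴ = 0 := by
  rw [← Matrix.conjTranspose_mul, D.sx x hx, Matrix.conjTranspose_zero]

theorem sHxH {x : Matrix n n ℂ} (hx : x ∈ J) : sᴴ * xᴴ = 0 := by
  rw [← Matrix.conjTranspose_mul, D.xs x hx, Matrix.conjTranspose_zero]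

/-- the eigenvalue of `h` on `x B` -/
theorem h_left {x B : Matrix n n ℂ} {β : ℂ} (hx : x ∈ J) (hB : h * B = β • B) :
    h * (x * B) = (β - 1) • (x * B) := by
  have h1 : h * x = x * h - x := by
    have h2 := D.deg x hx
    rw [ad_apply] at h2
    rw [show h * x = (h * x - x * h) + x * h by abel, h2]
    abel
  rw [← mul_assoc, h1, sub_mul, mul_assoc, hB, mul_smul_comm, sub_smul, one_smul]

theorem hH_left {x B : Matrix n n ℂ} {β : ℂ} (hx : x ∈ J) (hB : h * B = β • B) :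
    h * (xᴴ * B) = (β + 1) • (xᴴ * B) := by
  have h1 : h * xᴴ = xᴴ * h + xᴴ := by
    have h2 := D.degH hx
    rw [ad_apply] at h2
    rw [show h * xᴴ = (h * xᴴ - xᴴ * h) + xᴴ * h by abel, h2]
    abel
  rw [← mul_assoc, h1, add_mul, mul_assoc, hB, mul_smul_comm, add_smul, one_smul]

theorem h_right {x A : Matrix n n ℂ} {α : ℂ} (hx : x ∈ J) (hA : A * h = α • A) :
    (A * x) * h = (α + 1) • (A * x) := by
  have h1 : x * h = h * x + x := by
    have h2 := D.deg x hx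
    rw [ad_apply] at h2
    rw [show x * h = h * x - (h * x - x * h) by abel, h2]
    abel
  rw [mul_assoc, h1, mul_add, ← mul_assoc, hA, smul_mul_assoc, add_smul, one_smul]

theorem hH_right {x A : Matrix n n ℂ} {α : ℂ} (hx : x ∈ J) (hA : A * h = α • A) :
    (A * xᴴ) * h = (α - 1) • (A * xᴴ) := by
  have h1 : xᴴ * h = h * xᴴ - xᴴ := by
    have h2 := D.degH hx
    rw [ad_apply] at h2
    rw [show xᴴ * h = h * xᴴ - (h * xᴴ - xᴴ * h) by abel, h2]
  rw [mul_assoc, h1, mul_sub, ← mul_assoc, hA, smul_mul_assoc, sub_smul, one_smul]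

end Jor

end CYJ
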