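import Pool.Agent.Helper21.CY.Jor

/-!
Project CY, case A: expansions of columns, traces.
-/

open Matrix MH

namespace CYJ

variable {n : Type*} [Fintype n] [DecidableEq n]

namespace Jor

variable {J : Submodule ℂ (Matrix n n ℂ)} {h s : Matrix n n ℂ} {c k : ℝ} {N : ℕ}
  {f : Fin N → Matrix n n ℂ} (D : Jor J h s c k N f)
include D

/-- the resolution of the identity for any orthonormal basis -/
theorem one' {ι : Type*} [Fintype ι] [DecidableEq ι] {g : ι → Matrix n n ℂ} (hg : ONB J g) :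
    (1 : Matrix n n ℂ) = sᴴ * s + s * sᴴ + (c : ℂ)⁻¹ • ∑ i, g i * (sᴴ * s) * (g i)ᴴ +
    (c : ℂ)⁻¹ • ∑ i, (g i)ᴴ * (s * sᴴ) * g i := by
  have h1 := onb_sum D.onb hg (bil1 (sᴴ * s))
  have h2 := onb_sum D.onb hg (bil2 (s * sᴴ))
  have h3 : ∑ i, f i * (sᴴ * s) * (f i)ᴴ = ∑ i, g i * (sᴴ * s) * (g i)ᴴ := h1
  have h4 : ∑ i, (f i)ᴴ * (s * sᴴ) * f i = ∑ i, (g i)ᴴ * (s * sᴴ) * g i := h2
  rw [← h3, ← h4]
  exact D.one

theorem kap' {ι : Type*} [Fintype ι] [DecidableEq ι] {g : ι → Matrix n n ℂ} (hg : ONB J g) :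
    ∑ i, ad (g i)ᴴ (g i) = (k : ℂ) • h := by
  have h1 := onb_sum D.onb hg (bil1 (1 : Matrix n n ℂ))
  have h2 := onb_sum D.onb hg (bil2 (1 : Matrix n n ℂ))
  have h3 : ∑ i, f i * 1 * (f i)ᴴ = ∑ i, g i * 1 * (g i)ᴴ := h1
  have h4 : ∑ i, (f i)ᴴ * 1 * f i = ∑ i, (g i)ᴴ * 1 * g i := h2
  simp only [mul_one] at h3 h4
  rw [← D.kap]
  simp only [ad_apply, Finset.sum_sub_distrib]
  rw [h3, h4]

theorem expand' {ι : Type*} [Fintype ι] [DecidableEq ι] {g : ι → Matrix n n ℂ} (hg : ONB J g)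
    (B : Matrix n n ℂ) : B = (sᴴ * s) * B + (s * sᴴ) * B +
    (c : ℂ)⁻¹ • ∑ i, g i * ((sᴴ * s) * (g i)ᴴ * B) + (c : ℂ)⁻¹ • ∑ i, (g i)ᴴ * ((s * sᴴ) * g i * B) := by
  conv_lhs => rw [← one_mul B, D.one' hg]
  simp only [add_mul, smul_mul_assoc, Finset.sum_mul, mul_assoc]

theorem expand (B : Matrix n n ℂ) : B = (sᴴ * s) * B + (s * sᴴ) * B +
    (c : ℂ)⁻¹ • ∑ i, f i * ((sᴴ * s) * (f i)ᴴ * B) + (c : ℂ)⁻¹ • ∑ i, (f i)ᴴ * ((s * sᴴ) * f i * B) :=
  D.expand' D.onb B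

theorem p_row {β : ℂ} {B : Matrix n n ℂ} (hB : h * B = β • B) (hne : β ≠ 3 / 2) : (sᴴ * s) * B = 0 :=
  deg_kill' D.ph hB (Ne.symm hne)

theorem qh : (s * sᴴ) * h = (-(3 / 2) : ℂ) • (s * sᴴ) := by rw [mul_assoc, D.sHh, mul_smul_comm]

theorem hq : h * (s * sᴴ) = (-(3 / 2) : ℂ) • (s * sᴴ) := by rw [← mul_assoc, D.es, smul_mul_assoc]

theorem q_row {β : ℂ} {B : Matrix n n ℂ} (hB : h * B = β • B) (hne : β ≠ -(3 / 2)) : (s * sᴴ) * B = 0 :=
  deg_kill' D.qh hB (Ne.symm hne)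

theorem pf_row {β : ℂ} {B x : Matrix n n ℂ} (hx : x ∈ J) (hB : h * B = β • B) (hne : β ≠ 1 / 2) :
    (sᴴ * s) * xᴴ * B = 0 := by
  refine deg_kill' (D.hH_right hx D.ph) hB (fun h1 => hne ?_)
  rw [← h1]
  norm_num

theorem qf_row {β : ℂ} {B x : Matrix n n ℂ} (hx : x ∈ J) (hB : h * B = β • B) (hne : β ≠ -(1 / 2)) :
    (s * sᴴ) * x * B = 0 := by
  refine deg_kill' (D.h_right hx D.qh) hB (fun h1 => hne ?_)
  rw [← h1]
  norm_num

/-- columns of eigenvalue `3/2` -/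
theorem col_top {B : Matrix n n ℂ} (hB : h * B = (3 / 2 : ℂ) • B) : (sᴴ * s) * B = B := by
  have h1 := D.expand B
  rw [D.q_row hB (by norm_num), Finset.sum_eq_zero, Finset.sum_eq_zero, smul_zero, add_zero, add_zero, add_zero] at h1
  · exact h1.symm
  · intro i _
    rw [D.qf_row (D.onb.mem i) hB (by norm_num), mul_zero]
  · intro i _
    rw [D.pf_row (D.onb.mem i) hB (by norm_num), mul_zero]

theorem col_bot {B : Matrix n n ℂ} (hB : h * B = (-(3 / 2) : ℂ) • B) : (s * sᴴ) * B = B := by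
  have h1 := D.expand B
  rw [D.p_row hB (by norm_num), Finset.sum_eq_zero, Finset.sum_eq_zero, smul_zero, add_zero, zero_add, add_zero] at h1
  · exact h1.symm
  · intro i _
    rw [D.qf_row (D.onb.mem i) hB (by norm_num), mul_zero]
  · intro i _
    rw [D.pf_row (D.onb.mem i) hB (by norm_num), mul_zero]

theorem col_half {B : Matrix n n ℂ} (hB : h * B = (1 / 2 : ℂ) • B) :
    B = (c : ℂ)⁻¹ • ∑ i, f i * ((sᴴ * s) * (f i)ᴴ * B) := by
  have h1 := D.expand B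
  rw [D.p_row hB (by norm_num), D.q_row hB (by norm_num), zero_add, zero_add,
    Finset.sum_eq_zero (f := fun i => (f i)ᴴ * ((s * sᴴ) * f i * B)), smul_zero, add_zero] at h1
  · exact h1
  · intro i _
    rw [D.qf_row (D.onb.mem i) hB (by norm_num), mul_zero]

theorem col_mhalf {B : Matrix n n ℂ} (hB : h * B = (-(1 / 2) : ℂ) • B) :
    B = (c : ℂ)⁻¹ • ∑ i, (f i)ᴴ * ((s * sᴴ) * f i * B) := by
  have h1 := D.expand B
  rw [D.p_row hB (by norm_num), D.q_row hB (by norm_num), zero_add, zero_add,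
    Finset.sum_eq_zero (f := fun i => f i * ((sᴴ * s) * (f i)ᴴ * B)), smul_zero, zero_add] at h1
  · exact h1
  · intro i _
    rw [D.pf_row (D.onb.mem i) hB (by norm_num), mul_zero]

/-- no other eigenvalues -/
theorem col_zero {β : ℂ} {B : Matrix n n ℂ} (hB : h * B = β • B) (h1 : β ≠ 3 / 2) (h2 : β ≠ 1 / 2)
    (h3 : β ≠ -(1 / 2)) (h4 : β ≠ -(3 / 2)) : B = 0 := by
  have h5 := D.expand B
  rw [D.p_row hB h1, D.q_row hB h4, Finset.sum_eq_zero, Finset.sum_eq_zero, smul_zero, add_zero, add_zero,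
    add_zero] at h5
  · exact h5
  · intro i _
    rw [D.qf_row (D.onb.mem i) hB h3, mul_zero]
  · intro i _
    rw [D.pf_row (D.onb.mem i) hB h2, mul_zero]

/-- elements of degree zero on the top line -/
theorem zero_p {Z : Matrix n n ℂ} (hZ : ad h Z = 0) : Z * (sᴴ * s) = ((sᴴ * s) * Z).trace • (sᴴ * s) := by
  have h1 : h * (Z * (sᴴ * s)) = (3 / 2 : ℂ) • (Z * (sᴴ * s)) := by
    have h2 : h * Z = Z * h := sub_eq_zero.1 hZ
    rw [← mul_assoc, h2, mul_assoc, D.hp, mul_smul_comm]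
  rw [← D.col_top h1, ← mul_assoc, D.p1]

theorem zero_s {Z : Matrix n n ℂ} (hZ : ad h Z = 0) : Z * s = ((s * sᴴ) * Z).trace • s := by
  have h1 : h * (Z * s) = (-(3 / 2) : ℂ) • (Z * s) := by
    have h2 : h * Z = Z * h := sub_eq_zero.1 hZ
    rw [← mul_assoc, h2, mul_assoc, D.es, mul_smul_comm]
  rw [← D.col_bot h1, mul_assoc, ← mul_assoc sᴴ Z s, D.shms, mul_smul_comm, D.sp]

/-- columns of eigenvalue `1/2` are `x p` -/
theorem exists_half {B : Matrix n n ℂ} (hB : h * B = (1 / 2 : ℂ) • B) (hBp : B * (sᴴ * s) = B) :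
    ∃ x ∈ J, B = x * (sᴴ * s) := by
  refine ⟨(c : ℂ)⁻¹ • ∑ i, ((sᴴ * s) * ((f i)ᴴ * B)).trace • f i, ?_, ?_⟩
  · exact J.smul_mem _ (J.sum_mem fun i _ => J.smul_mem _ (D.onb.mem i))
  · conv_lhs => rw [D.col_half hB]
    rw [smul_mul_assoc, Finset.sum_mul]
    congr 1
    refine Finset.sum_congr rfl fun i _ => ?_
    rw [smul_mul_assoc, ← mul_smul_comm, ← D.p1]
    conv_lhs => rw [← hBp]
    noncomm_ring

/-- columns of eigenvalue `-1/2` are `xᴴ s` -/
theorem exists_mhalf {B : Matrix n n ℂ} (hB : h * B = (-(1 / 2) : ℂ) • B) (hBp : B * (sᴴ * s) = B) :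
    ∃ x ∈ J, B = xᴴ * s := by
  refine ⟨(c : ℂ)⁻¹ • ∑ i, star (sᴴ * (f i * B)).trace • f i, ?_, ?_⟩
  · exact J.smul_mem _ (J.sum_mem fun i _ => J.smul_mem _ (D.onb.mem i))
  · conv_lhs => rw [D.col_mhalf hB]
    rw [Matrix.conjTranspose_smul, Matrix.conjTranspose_sum, smul_mul_assoc, Finset.sum_mul]
    have hc : star ((c : ℂ)⁻¹) = (c : ℂ)⁻¹ := by
      rw [Complex.star_def, map_inv₀, Complex.conj_ofReal]
    rw [hc]
    congr 1
    refine Finset.sum_congr rfl fun i _ => ?_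
    rw [Matrix.conjTranspose_smul, star_star, smul_mul_assoc]
    have h1 : s * sᴴ * f i * B = (sᴴ * (f i * B)).trace • s := by
      calc s * sᴴ * f i * B = s * (sᴴ * (f i * B) * (sᴴ * s)) := by
            conv_lhs => rw [← hBp]
            noncomm_ring
        _ = _ := by rw [D.shmp, mul_smul_comm, D.sp]
    rw [h1, mul_smul_comm]

theorem inj_p {x : Matrix n n ℂ} (hx : x ∈ J) (h0 : x * (sᴴ * s) = 0) : x = 0 := by
  have h1 := D.cp x hx x hx
  rw [Matrix.trace_mul_comm, mul_assoc, h0, mul_zero, Matrix.trace_zero] at h1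
  have h2 : (xᴴ * x).trace = 0 := by
    rcases mul_eq_zero.1 h1.symm with h3 | h3
    · exact absurd h3 D.cC
    · exact h3
  refine nrm_eq_zero ?_
  show (hs x x).re = 0
  unfold MH.hs
  rw [h2, Complex.zero_re]

theorem inj_s {x : Matrix n n ℂ} (hx : x ∈ J) (h0 : xᴴ * s = 0) : x = 0 := by
  have h1 := D.cq x hx x hx
  have h4 : (s * sᴴ) * (x * xᴴ) = 0 := by
    have h5 : sᴴ * x = 0 := by
      have := congrArg Matrix.conjTranspose h0
      rw [Matrix.conjTranspose_mul, Matrix.conjTranspose_conjTranspose, Matrix.conjTranspose_zero] at this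
      exact this
    rw [mul_assoc, ← mul_assoc sᴴ, h5, zero_mul, mul_zero]
  rw [h4, Matrix.trace_zero] at h1
  have h2 : (x * xᴴ).trace = 0 := by
    rcases mul_eq_zero.1 h1.symm with h3 | h3
    · exact absurd h3 D.cC
    · exact h3
  refine nrm_eq_zero ?_
  show (hs x x).re = 0
  unfold MH.hs
  rw [Matrix.trace_mul_comm, h2, Complex.zero_re]

/-- two elements of `J` with the same column are equal -/
theorem ext_p {x y : Matrix n n ℂ} (hx : x ∈ J) (hy : y ∈ J) (h0 : x * (sᴴ * s) = y * (sᴴ * s)) : x = y :=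
  sub_eq_zero.1 (D.inj_p (J.sub_mem hx hy) (by rw [sub_mul, h0, sub_self]))

theorem ext_s {x y : Matrix n n ℂ} (hx : x ∈ J) (hy : y ∈ J) (h0 : xᴴ * s = yᴴ * s) : x = y :=
  sub_eq_zero.1 (D.inj_s (J.sub_mem hx hy) (by rw [Matrix.conjTranspose_sub, sub_mul, h0, sub_self]))

/-- the trace of a matrix -/
theorem trace_eq {ι : Type*} [Fintype ι] [DecidableEq ι] {g : ι → Matrix n n ℂ} (hg : ONB J g)
    (M : Matrix n n ℂ) : M.trace = ((sᴴ * s) * M).trace + ((s * sᴴ) * M).trace +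
    (c : ℂ)⁻¹ * ∑ i, ((sᴴ * s) * ((g i)ᴴ * M * g i)).trace +
    (c : ℂ)⁻¹ * ∑ i, ((s * sᴴ) * (g i * M * (g i)ᴴ)).trace := by
  have h1 := congrArg Matrix.trace (D.expand' hg M)
  rw [Matrix.trace_add, Matrix.trace_add, Matrix.trace_add, Matrix.trace_smul, Matrix.trace_smul, Matrix.trace_sum,
    Matrix.trace_sum, smul_eq_mul, smul_eq_mul] at h1
  have h2 : ∀ i, (g i * ((sᴴ * s) * (g i)ᴴ * M)).trace = ((sᴴ * s) * ((g i)ᴴ * M * g i)).trace := by
    intro i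
    rw [Matrix.trace_mul_comm (g i)]
    simp only [mul_assoc]
  have h3 : ∀ i, ((g i)ᴴ * ((s * sᴴ) * g i * M)).trace = ((s * sᴴ) * (g i * M * (g i)ᴴ)).trace := by
    intro i
    rw [Matrix.trace_mul_comm (g i)ᴴ]
    simp only [mul_assoc]
  simp only [h2, h3] at h1
  exact h1

theorem qt : (s * sᴴ).trace = 1 := by rw [Matrix.trace_mul_comm, D.pt]

theorem tr_ad_h {x y : Matrix n n ℂ} (hy : y ∈ J) : (ad xᴴ y * h).trace = (xᴴ * y).trace := by
  have h1 : (ad xᴴ y * h).trace = -(xᴴ * ad h y).trace := by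
    rw [ad_apply, ad_apply, sub_mul, mul_sub, Matrix.trace_sub, Matrix.trace_sub, mul_assoc y, Matrix.trace_mul_comm y,
      mul_assoc xᴴ h y, mul_assoc]
    ring
  rw [h1, D.deg y hy, mul_neg, Matrix.trace_neg, neg_neg]

/-- `c (N + 9) = 3`, `k (N + 9) = 2 N` -/
theorem numbers (hN : 1 ≤ N) : (c : ℂ) * (N + 9) = 3 ∧ (k : ℂ) * (N + 9) = 2 * N := by
  have hc := D.cC
  -- the trace of `h ^ 2`
  have e1 : (h * h).trace = ((N : ℂ) + 9) / 2 := by
    have h1 := D.trace_eq D.onb (h * h)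
    have h2 : ((sᴴ * s) * (h * h)).trace = 9 / 4 := by
      rw [← mul_assoc, D.ph, smul_mul_assoc, D.ph, Matrix.trace_smul, Matrix.trace_smul, D.pt]
      norm_num
    have h3 : ((s * sᴴ) * (h * h)).trace = 9 / 4 := by
      rw [← mul_assoc, D.qh, smul_mul_assoc, D.qh, Matrix.trace_smul, Matrix.trace_smul, D.qt]
      norm_num
    have h4 : ∀ i, ((sᴴ * s) * ((f i)ᴴ * (h * h) * f i)).trace = (c : ℂ) / 4 := by
      intro i
      have h5 := D.hH_right (D.onb.mem i) D.ph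
      have h6 : (sᴴ * s) * ((f i)ᴴ * (h * h) * f i) = (1 / 4 : ℂ) • ((sᴴ * s) * ((f i)ᴴ * f i)) := by
        calc (sᴴ * s) * ((f i)ᴴ * (h * h) * f i) = ((sᴴ * s) * (f i)ᴴ * h) * h * f i := by noncomm_ring
          _ = _ := by
            rw [h5, smul_mul_assoc, h5, smul_mul_assoc, smul_mul_assoc, smul_smul, mul_assoc (sᴴ * s)]
            congr 1
            norm_num
      have h7 := D.onb.orth i i
      rw [if_pos rfl] at h7
      unfold MH.hs at h7
      rw [h6, Matrix.trace_smul, D.cp _ (D.onb.mem i) _ (D.onb.mem i), h7, smul_eq_mul]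
      ring
    have h5 : ∀ i, ((s * sᴴ) * (f i * (h * h) * (f i)ᴴ)).trace = (c : ℂ) / 4 := by
      intro i
      have h5 := D.h_right (D.onb.mem i) D.qh
      have h6 : (s * sᴴ) * (f i * (h * h) * (f i)ᴴ) = (1 / 4 : ℂ) • ((s * sᴴ) * (f i * (f i)ᴴ)) := by
        calc (s * sᴴ) * (f i * (h * h) * (f i)ᴴ) = ((s * sᴴ) * f i * h) * h * (f i)ᴴ := by noncomm_ring
          _ = _ := by
            rw [h5, smul_mul_assoc, h5, smul_mul_assoc, smul_mul_assoc, smul_smul, mul_assoc (s * sᴴ)]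
            congr 1
            norm_num
      have h7 := D.onb.orth i i
      rw [if_pos rfl] at h7
      unfold MH.hs at h7
      rw [h6, Matrix.trace_smul, D.cq _ (D.onb.mem i) _ (D.onb.mem i), Matrix.trace_mul_comm (f i), h7, smul_eq_mul]
      ring
    rw [h2, h3, Finset.sum_congr rfl (fun i _ => h4 i), Finset.sum_congr rfl (fun i _ => h5 i), Finset.sum_const,
      Finset.card_univ, Fintype.card_fin, nsmul_eq_mul] at h1
    rw [h1]
    field_simp
    ring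
  have horth : ∀ i, ((f i)ᴴ * f i).trace = 1 := by
    intro i
    have h7 := D.onb.orth i i
    rw [if_pos rfl] at h7
    exact h7
  have e2 : (k : ℂ) * (h * h).trace = N := by
    have h1 : ((∑ i, ad (f i)ᴴ (f i)) * h).trace = N := by
      rw [Finset.sum_mul, Matrix.trace_sum]
      simp_rw [D.tr_ad_h (D.onb.mem _), horth]
      simp
    rw [D.kap, smul_mul_assoc, Matrix.trace_smul, smul_eq_mul] at h1
    exact h1
  have e3 : (c : ℂ) * N = (k : ℂ) * (3 / 2) := by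
    have h1 : ((sᴴ * s) * ∑ i, ad (f i)ᴴ (f i)).trace = c * N := by
      rw [Finset.mul_sum, Matrix.trace_sum]
      have h2 : ∀ i, ((sᴴ * s) * ad (f i)ᴴ (f i)).trace = c := by
        intro i
        have h3 : (sᴴ * s) * ad (f i)ᴴ (f i) = (sᴴ * s) * ((f i)ᴴ * f i) := by
          rw [ad_apply, mul_sub, mul_assoc sᴴ s (f i * (f i)ᴴ), ← mul_assoc s (f i), D.sx _ (D.onb.mem i)]
          simp
        rw [h3, D.cp _ (D.onb.mem i) _ (D.onb.mem i), horth, mul_one]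
      simp_rw [h2]
      simp
      ring
    rw [D.kap, mul_smul_comm, D.ph, Matrix.trace_smul, Matrix.trace_smul, D.pt] at h1
    simp only [smul_eq_mul, mul_one] at h1
    exact h1.symm
  rw [e1] at e2
  have hN0 : (N : ℂ) ≠ 0 := by
    have : N ≠ 0 := by omega
    exact_mod_cast this
  have e4 : (k : ℂ) * (N + 9) = 2 * N := by linear_combination 2 * e2
  refine ⟨?_, e4⟩
  have e5 : (N : ℂ) * ((c : ℂ) * (N + 9)) = N * 3 := by linear_combination (N + 9 : ℂ) * e3 + (3 / 2 : ℂ) * e4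
  exact mul_left_cancel₀ hN0 e5

end Jor

end CYJ
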