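import Pool.Agent.Helper21.CY.Dec

/-!
Project CY, case A: the multiplicities.
-/

open Matrix MH

namespace CYJ

variable {n : Type*} [Fintype n] [DecidableEq n]

theorem tr_ad_u (x y u : Matrix n n ℂ) : (ad xᴴ y * u).trace = -(xᴴ * ad u y).trace := by
  rw [ad_apply, ad_apply, sub_mul, mul_sub, Matrix.trace_sub, Matrix.trace_sub, mul_assoc y, Matrix.trace_mul_comm y,
    mul_assoc xᴴ u y, mul_assoc]
  ring

theorem tr_self (x : Matrix n n ℂ) : (xᴴ * x).trace = (nrm x : ℂ) := hs_self x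

namespace Trp

variable {J : Submodule ℂ (Matrix n n ℂ)} {h s : Matrix n n ℂ} {c k : ℝ} {N : ℕ}
  {f : Fin N → Matrix n n ℂ} {e u : Matrix n n ℂ} (T : Trp J e u) (D : Jor J h s c k N f)
include T D

theorem hu : ad h u = 0 := by
  rw [T.def_u, ad_jacobi h eᴴ e, D.degH T.mem, D.deg e T.mem, map_neg, add_neg_cancel]

theorem up : u * (sᴴ * s) = ((c * nrm e : ℝ) : ℂ) • (sᴴ * s) := by
  rw [D.zero_p (T.hu D)]
  congr 1
  rw [T.def_u, ad_apply, mul_sub, Matrix.trace_sub, D.cp e T.mem e T.mem, tr_self, mul_assoc sᴴ s (e * eᴴ),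
    ← mul_assoc s e, D.sx e T.mem]
  push_cast
  simp

theorem us : u * s = ((-(c * nrm e) : ℝ) : ℂ) • s := by
  rw [D.zero_s (T.hu D)]
  congr 1
  rw [T.def_u, ad_apply, mul_sub, Matrix.trace_sub, D.cq e T.mem e T.mem, Matrix.trace_mul_comm e, tr_self,
    mul_assoc s sᴴ (eᴴ * e), ← mul_assoc sᴴ eᴴ, D.sHxH T.mem]
  push_cast
  simp

theorem uxp {x : Matrix n n ℂ} {w : ℝ} (hx : ad u x = (w : ℂ) • x) :
    u * (x * (sᴴ * s)) = ((w + c * nrm e : ℝ) : ℂ) • (x * (sᴴ * s)) := by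
  have h1 : u * x = ad u x + x * u := by rw [ad_apply]; abel
  rw [← mul_assoc, h1, hx, add_mul, mul_assoc x u, T.up D, mul_smul_comm, smul_mul_assoc, ← add_smul]
  push_cast
  rfl

theorem uxs {x : Matrix n n ℂ} {w : ℝ} (hx : ad u x = (w : ℂ) • x) :
    u * (xᴴ * s) = ((-(w + c * nrm e) : ℝ) : ℂ) • (xᴴ * s) := by
  have h1 : u * xᴴ = ad u xᴴ + xᴴ * u := by rw [ad_apply]; abel
  rw [← mul_assoc, h1, T.wH hx, add_mul, mul_assoc xᴴ u, T.us D, mul_smul_comm, smul_mul_assoc, ← add_smul]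
  congr 1
  push_cast
  ring

theorem sq_p {x : Matrix n n ℂ} {w : ℝ} (hxJ : x ∈ J) (hx : ad u x = (w : ℂ) • x) (h1 : nrm x = 1) :
    ((sᴴ * s) * (xᴴ * (u * u) * x)).trace = (c : ℂ) * (w + c * nrm e) ^ 2 := by
  have h2 : ((sᴴ * s) * (xᴴ * (u * u) * x)).trace = (xᴴ * (u * (u * (x * (sᴴ * s))))).trace := by
    rw [Matrix.trace_mul_comm]
    simp only [mul_assoc]
  rw [h2, T.uxp D hx, mul_smul_comm, T.uxp D hx, mul_smul_comm, mul_smul_comm, Matrix.trace_smul, Matrix.trace_smul,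
    ← mul_assoc, Matrix.trace_mul_comm, D.cp x hxJ x hxJ, tr_self, h1]
  push_cast
  simp only [smul_eq_mul]
  ring

theorem sq_q {x : Matrix n n ℂ} {w : ℝ} (hxJ : x ∈ J) (hx : ad u x = (w : ℂ) • x) (h1 : nrm x = 1) :
    ((s * sᴴ) * (x * (u * u) * xᴴ)).trace = (c : ℂ) * (w + c * nrm e) ^ 2 := by
  have h2 : ((s * sᴴ) * (x * (u * u) * xᴴ)).trace = (sᴴ * x * (u * (u * (xᴴ * s)))).trace := by
    rw [mul_assoc s, Matrix.trace_mul_comm s]
    simp only [mul_assoc]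
  have h3 : (sᴴ * x * (xᴴ * s)).trace = c := by
    have h4 := D.cq x hxJ x hxJ
    rw [Matrix.trace_mul_comm x, tr_self, h1, Complex.ofReal_one, mul_one] at h4
    rw [← h4, mul_assoc s, Matrix.trace_mul_comm s]
    simp only [mul_assoc]
  rw [h2, T.uxs D hx, mul_smul_comm, T.uxs D hx, mul_smul_comm, mul_smul_comm, Matrix.trace_smul, Matrix.trace_smul, h3]
  push_cast
  simp only [smul_eq_mul]
  ring

/-- the equations for the multiplicities -/
theorem eqs {r : ℝ} {d1 d0 : ℕ} {g1 : Fin d1 → Matrix n n ℂ} {g0 : Fin d0 → Matrix n n ℂ} (hr : r * r * nrm e = 1)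
    (h1 : ONB (Jw J u (-1)) g1) (h0 : ONB (Jw J u 0) g0)
    (hg : ONB J (Sum.elim (fun _ : Unit => (r : ℂ) • e) (Sum.elim g1 g0))) :
    1 + d1 + d0 = N ∧ (2 : ℝ) + d1 = k * nrm e ∧
      nrm e = (c * nrm e) ^ 2 + ((c * nrm e - 2) ^ 2 + d1 * (c * nrm e - 1) ^ 2 + d0 * (c * nrm e) ^ 2) := by
  have hw : ∀ i, ∃ w : ℝ, ad u (Sum.elim (fun _ : Unit => (r : ℂ) • e) (Sum.elim g1 g0) i) =
      (w : ℂ) • Sum.elim (fun _ : Unit => (r : ℂ) • e) (Sum.elim g1 g0) i ∧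
      w = Sum.elim (fun _ : Unit => (-2 : ℝ)) (Sum.elim (fun _ : Fin d1 => (-1 : ℝ)) (fun _ : Fin d0 => (0 : ℝ))) i := by
    rintro (a | a | a)
    · refine ⟨-2, ?_, rfl⟩
      simp only [Sum.elim_inl]
      rw [map_smul, T.ue, smul_comm]
      push_cast
      rfl
    · refine ⟨-1, ?_, rfl⟩
      simp only [Sum.elim_inr, Sum.elim_inl]
      rw [(h1.mem a).2]
      push_cast
      rfl
    · refine ⟨0, ?_, rfl⟩
      simp only [Sum.elim_inr]
      rw [(h0.mem a).2, Complex.ofReal_zero]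
  choose w hw1 hw2 using hw
  refine ⟨?_, ?_, ?_⟩
  · have h2 := onb_card hg D.onb
    simp only [Fintype.card_sum, Fintype.card_unit, Fintype.card_fin] at h2
    omega
  · have h2 := congrArg (fun M => (M * u).trace) (D.kap' hg)
    simp only [Finset.sum_mul, Matrix.trace_sum, smul_mul_assoc, Matrix.trace_smul, smul_eq_mul] at h2
    have h3 : ∀ i, (ad (Sum.elim (fun _ : Unit => (r : ℂ) • e) (Sum.elim g1 g0) i)ᴴ
        (Sum.elim (fun _ : Unit => (r : ℂ) • e) (Sum.elim g1 g0) i) * u).trace = -(w i : ℂ) := by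
      intro i
      rw [tr_ad_u, hw1, mul_smul_comm, Matrix.trace_smul, tr_self, hg.nrm_one]
      simp
    simp_rw [h3, hw2] at h2
    rw [Fintype.sum_sum_type, Fintype.sum_sum_type] at h2
    simp only [Sum.elim_inl, Sum.elim_inr, Finset.sum_const, Finset.card_univ, Fintype.card_unit,
      Fintype.card_fin, nsmul_eq_mul] at h2
    have h4 : (h * u).trace = (nrm e : ℂ) := by
      rw [Matrix.trace_mul_comm, T.def_u, D.tr_ad_h T.mem, tr_self]
    rw [h4] at h2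
    have h5 : (((2 : ℝ) + d1 : ℝ) : ℂ) = ((k * nrm e : ℝ) : ℂ) := by
      push_cast
      rw [← h2]
      push_cast
      ring
    exact_mod_cast h5
  · have h2 := D.trace_eq hg (u * u)
    have h3 : (u * u).trace = 2 * (nrm e : ℂ) := by
      conv_lhs => rw [T.def_u]
      rw [← T.def_u]
      have h4 : (ad eᴴ e * u).trace = 2 * (nrm e : ℂ) := by
        rw [tr_ad_u, T.ue, mul_smul_comm, Matrix.trace_smul, tr_self, smul_eq_mul]
        ring
      rw [← h4, ← T.def_u]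
    have h4 : ((sᴴ * s) * (u * u)).trace = ((c * nrm e) ^ 2 : ℂ) := by
      rw [Matrix.trace_mul_comm, mul_assoc, T.up D, mul_smul_comm, T.up D, Matrix.trace_smul, Matrix.trace_smul, D.pt]
      push_cast
      simp only [smul_eq_mul]
      ring
    have h5 : ((s * sᴴ) * (u * u)).trace = ((c * nrm e) ^ 2 : ℂ) := by
      rw [Matrix.trace_mul_comm, ← mul_assoc, mul_assoc u u s, T.us D, mul_smul_comm, T.us D, smul_smul, smul_mul_assoc,
        Matrix.trace_smul, D.qt]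
      push_cast
      simp only [smul_eq_mul]
      ring
    have h6 : ∀ i, ((sᴴ * s) * ((Sum.elim (fun _ : Unit => (r : ℂ) • e) (Sum.elim g1 g0) i)ᴴ * (u * u) *
        Sum.elim (fun _ : Unit => (r : ℂ) • e) (Sum.elim g1 g0) i)).trace = (c : ℂ) * (w i + c * nrm e) ^ 2 :=
      fun i => T.sq_p D (hg.mem i) (hw1 i) (hg.nrm_one i)
    have h7 : ∀ i, ((s * sᴴ) * (Sum.elim (fun _ : Unit => (r : ℂ) • e) (Sum.elim g1 g0) i * (u * u) *
        (Sum.elim (fun _ : Unit => (r : ℂ) • e) (Sum.elim g1 g0) i)ᴴ)).trace = (c : ℂ) * (w i + c * nrm e) ^ 2 :=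
      fun i => T.sq_q D (hg.mem i) (hw1 i) (hg.nrm_one i)
    rw [h3, h4, h5, Finset.sum_congr rfl (fun i _ => h6 i), Finset.sum_congr rfl (fun i _ => h7 i)] at h2
    simp_rw [hw2] at h2
    rw [← Finset.mul_sum, ← mul_assoc, inv_mul_cancel₀ D.cC, one_mul, Fintype.sum_sum_type, Fintype.sum_sum_type] at h2
    simp only [Sum.elim_inl, Sum.elim_inr, Finset.sum_const, Finset.card_univ, Fintype.card_unit,
      Fintype.card_fin, nsmul_eq_mul] at h2
    have h8 : ((nrm e : ℝ) : ℂ) = (((c * nrm e) ^ 2 + ((c * nrm e - 2) ^ 2 + d1 * (c * nrm e - 1) ^ 2 +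
        d0 * (c * nrm e) ^ 2) : ℝ) : ℂ) := by
      push_cast at h2 ⊢
      linear_combination (1 / 2 : ℂ) * h2
    exact_mod_cast h8

end Trp

/-- the arithmetic -/
theorem arith {N d1 d0 : ℕ} {c k t : ℝ} (hN : 1 ≤ N) (ht : 0 < t) (hc0 : 0 < c) (hc : c * (N + 9) = 3)
    (hk : k * (N + 9) = 2 * N) (h1 : 1 + d1 + d0 = N) (h2 : (2 : ℝ) + d1 = k * t)
    (h3 : t = (c * t) ^ 2 + ((c * t - 2) ^ 2 + d1 * (c * t - 1) ^ 2 + d0 * (c * t) ^ 2)) :
    N = 1 ∨ (c * t = 1 ∧ ∃ a, N = 3 * a + 3 ∧ d1 = 2 * a ∧ d0 = a + 2) := by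
  set m : ℝ := c * t with hm
  have hm0 : 0 < m := by positivity
  have hNr : (0 : ℝ) < N + 9 := by positivity
  have e1 : m * (N + 9) = 3 * t := by rw [hm]; linear_combination t * hc
  have e2 : 3 * (2 + (d1 : ℝ)) = 2 * N * m := by
    have h4 : (N + 9 : ℝ) * (3 * (2 + (d1 : ℝ))) = (N + 9 : ℝ) * (2 * N * m) := by
      calc (N + 9 : ℝ) * (3 * (2 + (d1 : ℝ))) = 3 * (k * (N + 9)) * t := by rw [h2]; ring
        _ = 2 * N * (3 * t) := by rw [hk]; ring
        _ = _ := by rw [← e1]; ring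
    exact mul_left_cancel₀ hNr.ne' h4
  have e3 : (d0 : ℝ) = N - 1 - d1 := by
    have : (1 : ℝ) + d1 + d0 = N := by exact_mod_cast h1
    linarith
  have e4 : (m - 1) * ((3 - N) * m - 6) = 0 := by
    have h4 : 3 * t = 3 * (m ^ 2 + ((m - 2) ^ 2 + d1 * (m - 1) ^ 2 + d0 * m ^ 2)) := by rw [← h3]
    rw [← e1, e3] at h4
    have h5 : (d1 : ℝ) = 2 * N * m / 3 - 2 := by linarith
    rw [h5] at h4
    linear_combination -h4
  rcases mul_eq_zero.1 e4 with h4 | h4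
  · right
    have hm1 : m = 1 := by linarith
    refine ⟨hm1, ?_⟩
    rw [hm1, mul_one] at e2
    have e5 : 3 * (2 + d1) = 2 * N := by exact_mod_cast e2
    refine ⟨N / 3 - 1, ?_, ?_, ?_⟩ <;> omega
  · left
    have h5 : (3 - (N : ℝ)) * m = 6 := by linarith
    have h6 : N < 3 := by
      by_contra hcon
      push Not at hcon
      have h7 : (3 : ℝ) ≤ N := by exact_mod_cast hcon
      nlinarith
    have h7 : N = 1 ∨ N = 2 := by omega
    rcases h7 with h7 | h7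
    · exact h7
    · exfalso
      rw [h7] at h5 e2 h1
      push_cast at h5 e2
      have h8 : (d1 : ℝ) = 6 := by nlinarith
      have h9 : d1 = 6 := by exact_mod_cast h8
      omega

end CYJ
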