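import Pool.Agent.Helper21.CY.Trip

/-!
Project CY, case A: existence of a minimal tripotent.
-/

open Matrix MH

namespace CYJ

variable {n : Type*} [Fintype n] [DecidableEq n]

theorem ad_line (e y : Matrix n n ℂ) (t : ℝ) : ad (e + (t : ℂ) • y) (e + (t : ℂ) • y)ᴴ =
    ad e eᴴ + (t : ℂ) • (ad y eᴴ + ad e yᴴ) + ((t ^ 2 : ℝ) : ℂ) • ad y yᴴ := by
  have h1 : (e + (t : ℂ) • y)ᴴ = eᴴ + (t : ℂ) • yᴴ := by
    rw [Matrix.conjTranspose_add, Matrix.conjTranspose_smul, Complex.star_def, Complex.conj_ofReal]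
  rw [h1, ad_add_left, map_add, map_add, ad_smul_left, ad_smul_left, map_smul, map_smul, smul_smul, smul_add]
  push_cast
  rw [sq]
  abel

omit [DecidableEq n] in
theorem nrm_line (e y : Matrix n n ℂ) (t : ℝ) : nrm (e + (t : ℂ) • y) = nrm e + 2 * t * (hs e y).re + t ^ 2 * nrm y := by
  rw [nrm_add, nrm_smul, hs_smul_right, Complex.norm_real, Real.norm_eq_abs, sq_abs, Complex.re_ofReal_mul]
  ring

omit [DecidableEq n] in
theorem nrm_quad (S W T : Matrix n n ℂ) (t : ℝ) : nrm (S + (t : ℂ) • W + ((t ^ 2 : ℝ) : ℂ) • T) =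
    nrm S + 2 * t * (hs S W).re + t ^ 2 * (nrm W + 2 * (hs S T).re) + t ^ 3 * (2 * (hs W T).re) + t ^ 4 * nrm T := by
  rw [nrm_add, nrm_line, nrm_smul, hs_smul_right, hs_add_left, hs_smul_left, Complex.norm_real, Real.norm_eq_abs, sq_abs,
    Complex.re_ofReal_mul, Complex.add_re, Complex.star_def, Complex.conj_ofReal, Complex.re_ofReal_mul]
  ring

namespace Jor

variable {J : Submodule ℂ (Matrix n n ℂ)} {h s : Matrix n n ℂ} {c k : ℝ} {N : ℕ}
  {f : Fin N → Matrix n n ℂ} (D : Jor J h s c k N f)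
include D

theorem order12 {e : Matrix n n ℂ} (he : e ∈ J) (h1 : nrm e = 1)
    (hmax : ∀ x ∈ J, nrm (ad x xᴴ) ≤ nrm (ad e eᴴ) * nrm x ^ 2) {y : Matrix n n ℂ} (hy : y ∈ J) :
    nrm (ad e eᴴ) * (hs e y).re = (hs (ad (ad e eᴴ) e) y).re ∧
    0 ≤ nrm (ad e eᴴ) * (4 * (hs e y).re ^ 2 + 2 * nrm y) - (nrm (ad y eᴴ + ad e yᴴ) + 2 * (hs (ad (ad e eᴴ) y) y).re) := by
  set S := ad e eᴴ with hS
  set W := ad y eᴴ + ad e yᴴ with hW
  set T := ad y yᴴ with hT
  have hSW : (hs S W).re = 2 * (hs (ad S e) y).re := by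
    have hSS : Sᴴ = S := by rw [hS, ad_ess]
    have e1 : ad e yᴴ = (ad y eᴴ)ᴴ := (ad_ess y e).symm
    rw [hW, hs_add_right, e1, hs_star_right, hSS, ← hs_conj S, hs_trip, Complex.add_re, Complex.star_def,
      Complex.conj_re]
    ring
  have hST : hs S T = hs (ad S y) y := hs_trip S y y
  have h2 : ∀ t : ℝ, 0 ≤ (4 * nrm S * (hs e y).re - 2 * (hs S W).re) * t +
      (nrm S * (4 * (hs e y).re ^ 2 + 2 * nrm y) - (nrm W + 2 * (hs S T).re)) * t ^ 2 +
      (4 * nrm S * (hs e y).re * nrm y - 2 * (hs W T).re) * t ^ 3 + (nrm S * nrm y ^ 2 - nrm T) * t ^ 4 := by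
    intro t
    have h3 := hmax (e + (t : ℂ) • y) (J.add_mem he (J.smul_mem _ hy))
    rw [ad_line, nrm_quad, nrm_line e y, h1] at h3
    nlinarith [h3]
  obtain ⟨h3, h4⟩ := poly_coeff h2
  rw [hSW] at h3
  rw [hST] at h4
  exact ⟨by linarith, h4⟩

theorem G_pos {e : Matrix n n ℂ} (he : e ∈ J) (h1 : nrm e = 1) : 0 < nrm (ad e eᴴ) := by
  refine lt_of_le_of_ne (nrm_nonneg _) (fun h0 => ?_)
  have h2 := nrm_eq_zero h0.symm
  rw [ad_apply, sub_eq_zero] at h2
  have h3 := D.cp e he e he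
  rw [← h2, ← mul_assoc, mul_assoc sᴴ s e, D.sx e he, mul_zero, zero_mul, Matrix.trace_zero, h2] at h3
  rcases mul_eq_zero.1 h3.symm with h4 | h4
  · exact D.cC h4
  · have h5 : nrm e = 0 := by
      show (hs e e).re = 0
      unfold MH.hs
      rw [h4, Complex.zero_re]
    rw [h5] at h1
    norm_num at h1

/-- A minimal tripotent. -/
theorem exists_trip (hN : 1 ≤ N) : ∃ e ∈ J, e ≠ 0 ∧ ad (ad e eᴴ) e = (2 : ℂ) • e ∧
    ∀ y ∈ J, ad (ad e eᴴ) y = (2 : ℂ) • y → ∃ a : ℂ, y = a • e := by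
  obtain ⟨e, he, h1, hmax⟩ := D.exists_max hN
  have hG := D.G_pos he h1
  set G := nrm (ad e eᴴ) with hGd
  -- first order
  have hfirst : ad (ad e eᴴ) e = (G : ℂ) • e := by
    have hz : ad (ad e eᴴ) e - (G : ℂ) • e ∈ J := J.sub_mem (D.trip e he e he e he) (J.smul_mem _ he)
    have h2 := (D.order12 he h1 hmax hz).1
    have h3 : (hs (ad (ad e eᴴ) e - (G : ℂ) • e) (ad (ad e eᴴ) e - (G : ℂ) • e)).re = 0 := by
      rw [hs_sub_left, hs_smul_left, Complex.sub_re, Complex.star_def, Complex.conj_ofReal, Complex.re_ofReal_mul,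
        ← h2, sub_self]
    exact sub_eq_zero.1 (nrm_eq_zero h3)
  -- second order
  have hsec : ∀ y ∈ J, hs e y = 0 → ad (ad e eᴴ) y = (G : ℂ) • y → y = 0 := by
    intro y hy hey hGy
    have key : ∀ z ∈ J, hs e z = 0 → ad (ad e eᴴ) z = (G : ℂ) • z → ad z eᴴ + ad e zᴴ = 0 := by
      intro z hz hez hGz
      have h2 := (D.order12 he h1 hmax hz).2
      rw [hez, Complex.zero_re, hGz, hs_smul_left, hs_self, Complex.star_def, Complex.conj_ofReal,
        ← Complex.ofReal_mul, Complex.ofReal_re, ← hGd] at h2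
      have h3 : nrm (ad z eᴴ + ad e zᴴ) = 0 := by
        have := nrm_nonneg (ad z eᴴ + ad e zᴴ)
        nlinarith
      exact nrm_eq_zero h3
    have k1 := key y hy hey hGy
    have k2 := key (Complex.I • y) (J.smul_mem _ hy) (by rw [hs_smul_right, hey, mul_zero])
      (by rw [map_smul, hGy, smul_comm])
    rw [ad_smul_left, Matrix.conjTranspose_smul, map_smul, Complex.star_def, Complex.conj_I, neg_smul] at k2
    have k3 : Complex.I • (ad y eᴴ - ad e yᴴ) = 0 := by rw [smul_sub, sub_eq_add_neg, k2]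
    have k4 : ad y eᴴ - ad e yᴴ = 0 := by
      rcases smul_eq_zero.1 k3 with h | h
      · exact absurd h Complex.I_ne_zero
      · exact h
    have k5 : (2 : ℂ) • ad y eᴴ = 0 := by
      calc (2 : ℂ) • ad y eᴴ = (ad y eᴴ + ad e yᴴ) + (ad y eᴴ - ad e yᴴ) := by rw [two_smul]; abel
        _ = 0 := by rw [k1, k4, add_zero]
    have k6 : ad y eᴴ = 0 := by
      rcases smul_eq_zero.1 k5 with h | h
      · norm_num at h
      · exact h
    have k7 := trip_symm (y := e) (D.comm y hy e he)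
    rw [k6, hGy] at k7
    have k8 : ad (0 : Matrix n n ℂ) e = 0 := by rw [ad_apply]; simp
    rw [k8] at k7
    rcases smul_eq_zero.1 k7.symm with h | h
    · exact absurd (Complex.ofReal_eq_zero.1 h) hG.ne'
    · exact h
  -- scaling
  set l : ℝ := Real.sqrt (2 / G) with hl
  have hl2 : l * l = 2 / G := Real.mul_self_sqrt (by positivity)
  have hl0 : (l : ℂ) ≠ 0 := by
    have : 0 < l := Real.sqrt_pos.2 (by positivity)
    exact_mod_cast this.ne'
  have hGC : (G : ℂ) ≠ 0 := by exact_mod_cast hG.ne'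
  have hS : ad ((l : ℂ) • e) ((l : ℂ) • e)ᴴ = ((2 : ℂ) / G) • ad e eᴴ := by
    rw [Matrix.conjTranspose_smul, Complex.star_def, Complex.conj_ofReal, ad_smul_left, map_smul, smul_smul,
      ← Complex.ofReal_mul, hl2]
    push_cast
    rfl
  have he0 : e ≠ 0 := by
    rintro rfl
    rw [nrm_zero] at h1
    norm_num at h1
  refine ⟨(l : ℂ) • e, J.smul_mem _ he, smul_ne_zero hl0 he0, ?_, ?_⟩
  · rw [hS, ad_smul_left, map_smul, hfirst, smul_smul, smul_smul, smul_smul]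
    congr 1
    field_simp
  · intro y hy hy2
    rw [hS, ad_smul_left] at hy2
    have h2 : ad (ad e eᴴ) y = (G : ℂ) • y := by
      have h3 : ((G : ℂ) / 2) • ((2 : ℂ) / G) • ad (ad e eᴴ) y = ((G : ℂ) / 2) • (2 : ℂ) • y := by rw [hy2]
      rw [smul_smul, smul_smul] at h3
      rw [show (G : ℂ) / 2 * (2 / G) = 1 by field_simp, show (G : ℂ) / 2 * 2 = G by ring, one_smul] at h3
      exact h3
    have h3 := hsec (y - hs e y • e) (J.sub_mem hy (J.smul_mem _ he))
      (by rw [hs_sub_right, hs_smul_right, hs_self, h1, Complex.ofReal_one, mul_one, sub_self])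
      (by rw [map_sub, map_smul, h2, hfirst, smul_sub, smul_comm])
    refine ⟨hs e y * (l : ℂ)⁻¹, ?_⟩
    rw [smul_smul, mul_assoc, inv_mul_cancel₀ hl0, mul_one]
    exact sub_eq_zero.1 h3

end Jor

end CYJ
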