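import Pool.Agent.Helper21.CY.Jor2

/-!
Project CY, case A: a minimal tripotent, as the maximum of `x ↦ |[x, xᴴ]| ^ 2` on the unit sphere.
-/

open Matrix MH

namespace CYJ

theorem poly_nonneg {a b c d : ℝ} (h : ∀ t : ℝ, 0 < t → 0 ≤ a + b * t + c * t ^ 2 + d * t ^ 3) : 0 ≤ a := by
  by_contra ha
  push Not at ha
  set S : ℝ := |b| + |c| + |d| + 1 with hS
  have hS1 : 1 ≤ S := by
    have := abs_nonneg b
    have := abs_nonneg c
    have := abs_nonneg d
    linarith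
  have hm : 0 < -a := by linarith
  set t : ℝ := min 1 (-a / (2 * S)) with ht
  have ht0 : 0 < t := lt_min one_pos (by positivity)
  have ht1 : t ≤ 1 := min_le_left _ _
  have ht2 : t * (2 * S) ≤ -a := by
    have h1 : t ≤ -a / (2 * S) := min_le_right _ _
    rwa [le_div_iff₀ (by positivity)] at h1
  have h1 := h t ht0
  have hb : b * t ≤ |b| * t := mul_le_mul_of_nonneg_right (le_abs_self b) ht0.le
  have ht22 : t ^ 2 ≤ t := by nlinarith
  have ht33 : t ^ 3 ≤ t := by nlinarith [mul_nonneg ht0.le (sub_nonneg.2 ht1), sq_nonneg t]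
  have hc : c * t ^ 2 ≤ |c| * t :=
    le_trans (mul_le_mul_of_nonneg_right (le_abs_self c) (by positivity))
      (mul_le_mul_of_nonneg_left ht22 (abs_nonneg c))
  have hd : d * t ^ 3 ≤ |d| * t :=
    le_trans (mul_le_mul_of_nonneg_right (le_abs_self d) (by positivity))
      (mul_le_mul_of_nonneg_left ht33 (abs_nonneg d))
  have h2 : (|b| + |c| + |d|) * t ≤ S * t := by
    apply mul_le_mul_of_nonneg_right _ ht0.le
    linarith
  nlinarith

theorem poly_coeff {a b c d : ℝ} (h : ∀ t : ℝ, 0 ≤ a * t + b * t ^ 2 + c * t ^ 3 + d * t ^ 4) :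
    a = 0 ∧ 0 ≤ b := by
  have h1 : 0 ≤ a := by
    refine poly_nonneg (b := b) (c := c) (d := d) fun t ht => ?_
    have h2 := h t
    have h3 : a * t + b * t ^ 2 + c * t ^ 3 + d * t ^ 4 = t * (a + b * t + c * t ^ 2 + d * t ^ 3) := by ring
    rw [h3] at h2
    exact nonneg_of_mul_nonneg_right h2 ht
  have h1' : 0 ≤ -a := by
    refine poly_nonneg (b := b) (c := -c) (d := d) fun t ht => ?_
    have h2 := h (-t)
    have h3 : a * (-t) + b * (-t) ^ 2 + c * (-t) ^ 3 + d * (-t) ^ 4 = t * (-a + b * t + -c * t ^ 2 + d * t ^ 3) := by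
      ring
    rw [h3] at h2
    exact nonneg_of_mul_nonneg_right h2 ht
  have ha : a = 0 := by linarith
  refine ⟨ha, ?_⟩
  refine poly_nonneg (b := c) (c := d) (d := 0) fun t ht => ?_
  have h2 := h t
  rw [ha] at h2
  have h3 : 0 * t + b * t ^ 2 + c * t ^ 3 + d * t ^ 4 = t ^ 2 * (b + c * t + d * t ^ 2 + 0 * t ^ 3) := by ring
  rw [h3] at h2
  exact nonneg_of_mul_nonneg_right h2 (by positivity)

variable {n : Type*} [Fintype n] [DecidableEq n]

theorem ad_ess (x y : Matrix n n ℂ) : (ad x yᴴ)ᴴ = ad y xᴴ := by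
  rw [ad_star, Matrix.conjTranspose_conjTranspose, ← ad_anti]

theorem trip_symm {x y z : Matrix n n ℂ} (hxz : x * z = z * x) : ad (ad x yᴴ) z = ad (ad z yᴴ) x := by
  simp only [ad_apply]
  have h1 : (x * yᴴ - yᴴ * x) * z - z * (x * yᴴ - yᴴ * x) - ((z * yᴴ - yᴴ * z) * x - x * (z * yᴴ - yᴴ * z)) =
      -(yᴴ * (x * z - z * x)) + (x * z - z * x) * yᴴ := by noncomm_ring
  rw [hxz, sub_self, mul_zero, zero_mul, neg_zero, add_zero] at h1
  exact sub_eq_zero.1 h1

/-- `hs [x, yᴴ] [z, wᴴ] = hs [[x, yᴴ]ᴴ .. ]` -/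
theorem hs_trip (A y e : Matrix n n ℂ) : hs A (ad y eᴴ) = hs (ad A e) y := by
  rw [ad_anti y, hs_neg_right, hs_ad, Matrix.conjTranspose_conjTranspose, ad_anti e, hs_neg_left, neg_neg]

namespace Jor

variable {J : Submodule ℂ (Matrix n n ℂ)} {h s : Matrix n n ℂ} {c k : ℝ} {N : ℕ}
  {f : Fin N → Matrix n n ℂ} (D : Jor J h s c k N f)

theorem g_smul (a : ℂ) (x : Matrix n n ℂ) : nrm (ad (a • x) (a • x)ᴴ) = (‖a‖ ^ 2) ^ 2 * nrm (ad x xᴴ) := by
  rw [Matrix.conjTranspose_smul, ad_smul_left, map_smul, smul_smul, nrm_smul]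
  congr 1
  rw [norm_mul, norm_star]
  ring

include D in
theorem exists_max (hN : 1 ≤ N) : ∃ e ∈ J, nrm e = 1 ∧ ∀ x ∈ J, nrm (ad x xᴴ) ≤ nrm (ad e eᴴ) * nrm x ^ 2 := by
  classical
  set X : EuclideanSpace ℂ (Fin N) → Matrix n n ℂ := fun t => ∑ i, t i • f i with hX
  have hcont : Continuous fun t => nrm (ad (X t) (X t)ᴴ) := by
    have hXc : Continuous X := by
      rw [hX]
      refine continuous_finsetSum _ fun i _ => ?_
      have h1 : Continuous fun t : EuclideanSpace ℂ (Fin N) => t i := by fun_prop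
      exact h1.smul continuous_const
    unfold nrm hs
    simp only [ad_apply]
    fun_prop
  have hXJ : ∀ t, X t ∈ J := fun t => J.sum_mem fun i _ => J.smul_mem _ (D.onb.mem i)
  have hXn : ∀ t, nrm (X t) = ‖t‖ ^ 2 := by
    intro t
    have h1 := D.onb.parseval (hXJ t)
    have h2 : ∀ i, hs (f i) (X t) = t i := by
      intro i
      rw [hX, hs_sum_right]
      simp_rw [hs_smul_right, D.onb.orth]
      simp
    simp_rw [h2] at h1
    rw [h1, EuclideanSpace.norm_sq_eq]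
  have hne : (Metric.sphere (0 : EuclideanSpace ℂ (Fin N)) 1).Nonempty := by
    refine ⟨EuclideanSpace.single ⟨0, by omega⟩ 1, ?_⟩
    rw [mem_sphere_zero_iff_norm]
    simp
  obtain ⟨t0, ht0, hmax⟩ := (isCompact_sphere (0 : EuclideanSpace ℂ (Fin N)) 1).exists_isMaxOn hne hcont.continuousOn
  rw [mem_sphere_zero_iff_norm] at ht0
  refine ⟨X t0, hXJ t0, by rw [hXn, ht0, one_pow], ?_⟩
  intro x hx
  rcases eq_or_ne (nrm x) 0 with h0 | h0
  · rw [nrm_eq_zero h0]
    simp [ad_apply, nrm_zero]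
  · have hpos : 0 < nrm x := lt_of_le_of_ne (nrm_nonneg x) (Ne.symm h0)
    set u : EuclideanSpace ℂ (Fin N) := WithLp.toLp 2 fun i => hs (f i) x with hu
    have hXu : X u = x := by
      rw [hX]
      exact (D.onb.exp x hx).symm
    have hun : ‖u‖ ^ 2 = nrm x := by rw [← hXn, hXu]
    have hu0 : 0 < ‖u‖ := by
      rw [← hun] at hpos
      by_contra hcon
      have : ‖u‖ = 0 := le_antisymm (not_lt.1 hcon) (norm_nonneg u)
      rw [this] at hpos
      norm_num at hpos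
    set a : ℂ := ((‖u‖⁻¹ : ℝ) : ℂ) with ha
    have hna : ‖a‖ = ‖u‖⁻¹ := by
      rw [ha, Complex.norm_real, Real.norm_eq_abs, abs_of_pos (by positivity)]
    have hau : ‖a • u‖ = 1 := by rw [norm_smul, hna, inv_mul_cancel₀ hu0.ne']
    have h1 := hmax (mem_sphere_zero_iff_norm.2 hau)
    simp only [Set.mem_ofPred_eq] at h1
    have h2 : X (a • u) = a • x := by
      rw [← hXu, hX]
      simp only [PiLp.smul_apply, smul_eq_mul, Finset.smul_sum, smul_smul]
    rw [h2, g_smul, hna] at h1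
    have h3 : (‖u‖⁻¹ ^ 2) ^ 2 * nrm x ^ 2 = 1 := by
      rw [← hun]
      field_simp
    calc nrm (ad x xᴴ) = nrm x ^ 2 * ((‖u‖⁻¹ ^ 2) ^ 2 * nrm (ad x xᴴ)) := by
          rw [← mul_assoc, mul_comm (nrm x ^ 2), h3, one_mul]
      _ ≤ nrm x ^ 2 * nrm (ad (X t0) (X t0)ᴴ) := mul_le_mul_of_nonneg_left h1 (by positivity)
      _ = _ := mul_comm _ _

end Jor

end CYJ
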